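import Pool.Agent.H861R2.Pal.T11
/-! helper86: collisions of palindromes modulo `p`. -/
set_option autoImplicit false
namespace Pool.Agent.L5helper86.PalR
open Finset
open Pool.Agent.H476R2.Pal (fr fr_scale)
open Pool.Agent.H861R2.Pal (pvl)

/-- the block of the middle digits -/
def Bk (k : ℕ) (m : ℕ → ℕ) : ℕ := ∑ c ∈ range (k + 1), m c * fr k c

lemma Bk_succ (k : ℕ) (m : ℕ → ℕ) : Bk (k + 1) m = 10 * Bk k m + m (k + 1) * (10 ^ (2 * k + 2) + 1) := by
  unfold Bk
  rw [sum_range_succ _ (k + 1)]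
  have h1 : fr (k + 1) (k + 1) = 10 ^ (2 * k + 2) + 1 := by
    unfold fr
    rw [if_neg (by omega), Nat.sub_self, pow_zero]
    congr 2
    ring
  rw [h1, mul_sum]
  congr 1
  refine sum_congr rfl fun c hc => ?_
  rw [fr_scale (L := k + 1) (M := k) (by omega) (by rw [mem_range] at hc; omega)]
  rw [Nat.add_sub_cancel_left, pow_one]
  ring

lemma Bk_zero (m : ℕ → ℕ) : Bk 0 m = m 0 := by
  simp [Bk, fr]

lemma Bk_lt (k : ℕ) (m : ℕ → ℕ) (hm : ∀ c, m c ≤ 9) : Bk k m < 10 ^ (2 * k + 1) := by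
  induction k with
  | zero =>
    rw [Bk_zero]
    have := hm 0
    norm_num
    omega
  | succ k ih =>
    rw [Bk_succ]
    have h1 := hm (k + 1)
    have h2 : m (k + 1) * (10 ^ (2 * k + 2) + 1) ≤ 9 * (10 ^ (2 * k + 2) + 1) := Nat.mul_le_mul_right _ h1
    have h3 : 10 ^ (2 * (k + 1) + 1) = 10 * 10 ^ (2 * k + 2) := by rw [← pow_succ']; congr 1
    have h4 : 10 ^ (2 * k + 2) = 10 * 10 ^ (2 * k + 1) := by rw [← pow_succ']
    omega

lemma Bk_inj (k : ℕ) (m m' : ℕ → ℕ) (hm : ∀ c, m c ≤ 9) (hm' : ∀ c, m' c ≤ 9) (h : Bk k m = Bk k m') :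
    ∀ c ≤ k, m c = m' c := by
  induction k with
  | zero =>
    intro c hc
    rw [Bk_zero, Bk_zero] at h
    obtain rfl : c = 0 := by omega
    exact h
  | succ k ih =>
    rw [Bk_succ, Bk_succ] at h
    have h4 : 10 ^ (2 * k + 2) = 10 * 10 ^ (2 * k + 1) := by rw [← pow_succ']
    rw [h4] at h
    have e1 : m (k + 1) = m' (k + 1) := by
      have h1 := hm (k + 1)
      have h1' := hm' (k + 1)
      have h5 : (10 * Bk k m + m (k + 1) * (10 * 10 ^ (2 * k + 1) + 1)) % 10 =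
        (10 * Bk k m' + m' (k + 1) * (10 * 10 ^ (2 * k + 1) + 1)) % 10 := by rw [h]
      have h6 : ∀ x y z : ℕ, (10 * x + y * (10 * z + 1)) % 10 = y % 10 := by
        intro x y z
        rw [show 10 * x + y * (10 * z + 1) = y + 10 * (x + y * z) by ring, Nat.add_mul_mod_self_left]
      rw [h6, h6] at h5
      omega
    rw [e1] at h
    have e2 : Bk k m = Bk k m' := by omega
    intro c hc
    rcases Nat.lt_or_ge c (k + 1) with hc' | hc'
    · exact ih e2 c (by omega)
    · obtain rfl : c = k + 1 := by omega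
      exact e1

/-- the digits as a function on the integers -/
def dg {L : ℕ} (m : Fin L → Fin 10) (c : ℕ) : ℕ := if h : c < L then (m ⟨c, h⟩ : ℕ) else 0

lemma dg_le {L : ℕ} (m : Fin L → Fin 10) (c : ℕ) : dg m c ≤ 9 := by
  unfold dg
  split_ifs with h
  · have := (m ⟨c, h⟩).2
    omega
  · omega

lemma pvl_dg (l L : ℕ) (m : Fin L → Fin 10) : pvl l L m = l * (10 ^ (2 * L) + 1) + ∑ c ∈ range L, dg m c * fr L c := by
  unfold pvl
  congr 1
  rw [← Fin.sum_univ_eq_sum_range (fun c => dg m c * fr L c) L]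
  refine sum_congr rfl fun c _ => ?_
  simp [dg, c.2]

/-- the middle block inside the palindrome -/
lemma pvl_split (l L k : ℕ) (hk : k + 1 ≤ L) (m : Fin L → Fin 10) :
    pvl l L m = l * (10 ^ (2 * L) + 1) + (10 ^ (L - k) * Bk k (dg m) + ∑ c ∈ Ico (k + 1) L, dg m c * fr L c) := by
  rw [pvl_dg]
  congr 1
  rw [← sum_range_add_sum_Ico _ hk]
  congr 1
  unfold Bk
  rw [mul_sum]
  refine sum_congr rfl fun c hc => ?_
  rw [fr_scale (L := L) (M := k) (by omega) (by rw [mem_range] at hc; omega)]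
  ring

/-- for given `m'` there are few `m` in the same class -/
lemma coll1 (l L k p : ℕ) (hk : k + 1 ≤ L) (hp : p.Coprime 10) (hkp : 10 ^ (2 * k + 1) ≤ p) (N : ℤ) :
    #{m : Fin L → Fin 10 | (p : ℤ) ∣ (pvl l L m : ℤ) - N} ≤ 10 ^ (L - (k + 1)) := by
  classical
  have hcard : #(univ : Finset (Fin (L - (k + 1)) → Fin 10)) = 10 ^ (L - (k + 1)) := by
    rw [card_univ, Fintype.card_fun, Fintype.card_fin, Fintype.card_fin]
  rw [← hcard]
  refine card_le_card_of_injOn (fun m i => m ⟨k + 1 + i, by have := i.2; omega⟩) (fun _ _ => mem_coe.2 (mem_univ _)) ?_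
  intro m hm m' hm' hmm
  rw [mem_coe, mem_filter] at hm hm'
  have h1 : (p : ℤ) ∣ (pvl l L m : ℤ) - (pvl l L m' : ℤ) := by
    have := dvd_sub hm.2 hm'.2
    rwa [sub_sub_sub_cancel_right] at this
  have hout : ∀ c, k + 1 ≤ c → dg m c = dg m' c := by
    intro c hc
    unfold dg
    split_ifs with h
    · have h2 := congrFun hmm ⟨c - (k + 1), by omega⟩
      simp only at h2
      have e : k + 1 + (c - (k + 1)) = c := by omega
      simp only [e] at h2
      rw [h2]
    · rfl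
  have h2 : ∑ c ∈ Ico (k + 1) L, dg m c * fr L c = ∑ c ∈ Ico (k + 1) L, dg m' c * fr L c :=
    sum_congr rfl fun c hc => by rw [hout c (mem_Ico.1 hc).1]
  rw [pvl_split l L k hk, pvl_split l L k hk m', h2] at h1
  push_cast at h1
  have h3 : (p : ℤ) ∣ (10 : ℤ) ^ (L - k) * ((Bk k (dg m) : ℤ) - Bk k (dg m')) := by
    convert h1 using 1
    ring
  have h4 : IsCoprime (p : ℤ) ((10 : ℤ) ^ (L - k)) := by
    have := (Nat.isCoprime_iff_coprime.2 hp).pow_right (n := L - k)
    exact_mod_cast this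
  have h5 := h4.dvd_of_dvd_mul_left h3
  have b1 := Bk_lt k (dg m) (dg_le m)
  have b2 := Bk_lt k (dg m') (dg_le m')
  have h6 : (Bk k (dg m) : ℤ) - Bk k (dg m') = 0 := by
    refine Int.eq_zero_of_abs_lt_dvd h5 ?_
    rw [abs_lt]
    have c1 : (Bk k (dg m) : ℤ) < p := by exact_mod_cast b1.trans_le hkp
    have c2 : (Bk k (dg m') : ℤ) < p := by exact_mod_cast b2.trans_le hkp
    have c3 : (0 : ℤ) ≤ Bk k (dg m) := Int.natCast_nonneg _
    have c4 : (0 : ℤ) ≤ Bk k (dg m') := Int.natCast_nonneg _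
    constructor <;> linarith
  have h7 : Bk k (dg m) = Bk k (dg m') := by
    have : (Bk k (dg m) : ℤ) = Bk k (dg m') := by linarith
    exact_mod_cast this
  have h8 := Bk_inj k _ _ (dg_le m) (dg_le m') h7
  funext c
  have h9 : dg m c = dg m' c := by
    rcases Nat.lt_or_ge (c : ℕ) (k + 1) with h | h
    · exact h8 c (by omega)
    · exact hout c h
  unfold dg at h9
  simp only [c.2, dif_pos] at h9
  exact Fin.ext h9

lemma card_all (L : ℕ) : #(univ : Finset (Fin L → Fin 10)) = 10 ^ L := by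
  rw [card_univ, Fintype.card_fun, Fintype.card_fin, Fintype.card_fin]

/-- at most `10^L √(10/p)` palindromes with given leading digit in one class modulo `p` -/
lemma coll2 (l L p : ℕ) (hp : p.Coprime 10) (hp0 : 1 ≤ p) (hpL : p ≤ 10 ^ (2 * L + 1)) (N : ℤ) :
    (#{m : Fin L → Fin 10 | (p : ℤ) ∣ (pvl l L m : ℤ) - N} : ℝ) ≤ 10 ^ L * (√10 / √p) := by
  have hp0' : (0 : ℝ) < p := by exact_mod_cast hp0
  have hsp : 0 < √(p : ℝ) := Real.sqrt_pos.2 hp0'
  -- the largest admissible k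
  by_cases hsmall : p < 10
  · have h1 : (#{m : Fin L → Fin 10 | (p : ℤ) ∣ (pvl l L m : ℤ) - N} : ℝ) ≤ 10 ^ L := by
      have : #{m : Fin L → Fin 10 | (p : ℤ) ∣ (pvl l L m : ℤ) - N} ≤ 10 ^ L := by
        rw [← card_all L]
        exact card_filter_le _ _
      exact_mod_cast this
    refine h1.trans ?_
    refine le_mul_of_one_le_right (by positivity) ?_
    rw [one_le_div hsp]
    exact Real.sqrt_le_sqrt (by exact_mod_cast hsmall.le)
  · rw [not_lt] at hsmall
    have hL : 1 ≤ L := by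
      rcases Nat.eq_zero_or_pos L with h | h
      · subst h
        exfalso
        have h2 : p = 10 := by
          norm_num at hpL
          omega
        rw [h2] at hp
        norm_num at hp
      · exact h
    obtain ⟨k, hk⟩ : ∃ k, k = Nat.findGreatest (fun k => 10 ^ (2 * k + 1) ≤ p) (L - 1) := ⟨_, rfl⟩
    have hk1 : k ≤ L - 1 := by rw [hk]; exact Nat.findGreatest_le _
    have hk2 : 10 ^ (2 * k + 1) ≤ p := by
      rw [hk]
      exact Nat.findGreatest_spec (P := fun k => 10 ^ (2 * k + 1) ≤ p) (m := 0) (Nat.zero_le _) (by simpa using hsmall)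
    have hk3 : p ≤ 10 ^ (2 * (k + 1) + 1) := by
      rcases Nat.lt_or_ge k (L - 1) with h | h
      · by_contra hc
        rw [not_le] at hc
        have := Nat.findGreatest_is_greatest (P := fun k => 10 ^ (2 * k + 1) ≤ p) (n := L - 1) (k := k + 1)
          (by omega) (by omega)
        exact this hc.le
      · have : k + 1 = L := by omega
        rw [this]
        exact hpL
    have h1 := coll1 l L k p (by omega) hp hk2 N
    have h2 : (#{m : Fin L → Fin 10 | (p : ℤ) ∣ (pvl l L m : ℤ) - N} : ℝ) ≤ 10 ^ (L - (k + 1)) := by exact_mod_cast h1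
    refine h2.trans ?_
    have h3 : (10 : ℝ) ^ L = 10 ^ (L - (k + 1)) * 10 ^ (k + 1) := by
      rw [← pow_add]
      congr 1
      omega
    rw [h3, mul_assoc]
    refine le_mul_of_one_le_right (by positivity) ?_
    rw [← mul_div_assoc, one_le_div hsp]
    rw [Real.sqrt_le_left (by positivity)]
    rw [mul_pow, Real.sq_sqrt (by norm_num)]
    have h4 : (p : ℝ) ≤ 10 ^ (2 * (k + 1) + 1) := by exact_mod_cast hk3
    refine h4.trans (le_of_eq ?_)
    ring

lemma pvl_lt {l L : ℕ} (hL : 1 ≤ L) (hl : l ≤ 9) (m : Fin L → Fin 10) : pvl l L m < 10 ^ (2 * L + 1) := by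
  obtain ⟨k, rfl⟩ : ∃ k, L = k + 1 := ⟨L - 1, by omega⟩
  rw [pvl_split l (k + 1) k le_rfl, Ico_self, sum_empty, Nat.add_sub_cancel_left, pow_one, add_zero]
  have h1 := Bk_lt k (dg m) (dg_le m)
  have h2 : l * (10 ^ (2 * (k + 1)) + 1) ≤ 9 * (10 ^ (2 * (k + 1)) + 1) := Nat.mul_le_mul_right _ hl
  have h3 : 10 ^ (2 * (k + 1) + 1) = 10 * 10 ^ (2 * (k + 1)) := by rw [← pow_succ']
  have h4 : 10 ^ (2 * (k + 1)) = 10 * 10 ^ (2 * k + 1) := by rw [← pow_succ']; congr 1
  omega

lemma pvl_ge {l L : ℕ} (hl : 1 ≤ l) (m : Fin L → Fin 10) : 10 ^ (2 * L) ≤ pvl l L m := by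
  unfold pvl
  have : 1 * (10 ^ (2 * L) + 1) ≤ l * (10 ^ (2 * L) + 1) := Nat.mul_le_mul_right _ hl
  omega

/-- large moduli separate the palindromes -/
lemma coll3 {l L p : ℕ} (hL : 1 ≤ L) (hl : l ≤ 9) (hpL : 10 ^ (2 * L + 1) ≤ p) (m m' : Fin L → Fin 10)
    (h : (p : ℤ) ∣ (pvl l L m : ℤ) - pvl l L m') : m = m' := by
  have b1 := pvl_lt hL hl m
  have b2 := pvl_lt hL hl m'
  have h6 : (pvl l L m : ℤ) - pvl l L m' = 0 := by
    refine Int.eq_zero_of_abs_lt_dvd h ?_
    rw [abs_lt]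
    have c1 : (pvl l L m : ℤ) < p := by exact_mod_cast b1.trans_le hpL
    have c2 : (pvl l L m' : ℤ) < p := by exact_mod_cast b2.trans_le hpL
    have c3 : (0 : ℤ) ≤ pvl l L m := Int.natCast_nonneg _
    have c4 : (0 : ℤ) ≤ pvl l L m' := Int.natCast_nonneg _
    constructor <;> linarith
  have h7 : pvl l L m = pvl l L m' := by
    have : (pvl l L m : ℤ) = pvl l L m' := by linarith
    exact_mod_cast this
  have h8 := Pool.Agent.H861R2.Pal.pvl_inj L hL (x₁ := (l, m)) (x₂ := (l, m')) hl hl h7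
  exact (Prod.mk.inj h8).2

end Pool.Agent.L5helper86.PalR
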