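import Pool.Agent.H476R2.Pal.BV2
import Pool.Agent.L5helper86.PalR.Coll
/-! helper86: palindromes in systems of residue classes (level of distribution). -/
set_option autoImplicit false
namespace Pool.Agent.L5helper86.PalR
open Finset Filter
open Pool.Agent.H861R2.Pal (pvl)
open Pool.Agent.H476R2.Pal (pv fr cnt BV2)

/-- the maximal error -/
lemma Emax (A : ℕ) : ∀ᶠ L : ℕ in atTop, ∃ E : ℕ → ℝ, (∀ q, 0 ≤ E q) ∧
    (∀ q, 1 ≤ q → ∀ h, |cnt L q h - 10 ^ L / q| ≤ E q) ∧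
    ∑ q ∈ (Icc 1 ⌊(10 : ℝ) ^ ((3 / 5 : ℝ) * L)⌋₊).filter (fun q => q.Coprime 10), E q ≤ 10 ^ L / (L : ℝ) ^ A := by
  filter_upwards [BV2 A] with L hL
  have hmax : ∀ q : ℕ, ∃ h : ℕ, 1 ≤ q → ∀ h', |cnt L q h' - 10 ^ L / q| ≤ |cnt L q h - 10 ^ L / q| := by
    intro q
    by_cases hq : 1 ≤ q
    · obtain ⟨h, _, hh⟩ := Finset.exists_max_image (range q) (fun h => |cnt L q h - 10 ^ L / q|)
        ⟨0, by rw [mem_range]; omega⟩
      refine ⟨h, fun _ h' => ?_⟩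
      have h1 := hh (h' % q) (by rw [mem_range]; exact Nat.mod_lt _ hq)
      have h2 : cnt L q (h' % q) = cnt L q h' := by
        unfold cnt
        congr 2
        refine filter_congr fun m _ => ?_
        unfold Nat.ModEq
        rw [Nat.mod_mod]
      rwa [h2] at h1
    · exact ⟨0, fun h => absurd h hq⟩
  choose h hh using hmax
  refine ⟨fun q => |cnt L q (h q) - 10 ^ L / q|, fun q => abs_nonneg _, fun q hq h' => hh q hq h', ?_⟩
  refine le_trans (sum_le_sum fun q hq => ?_) (hL h)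
  rw [mem_filter, mem_Icc] at hq
  have h1 : 1 ≤ q.divisors.card := by
    rw [Nat.one_le_iff_ne_zero, Finset.card_ne_zero]
    exact ⟨1, Nat.one_mem_divisors.2 (by omega)⟩
  have h2 : (1 : ℝ) ≤ (q.divisors.card : ℝ) ^ 2 := one_le_pow₀ (by exact_mod_cast h1)
  exact le_mul_of_one_le_left (abs_nonneg _) h2

lemma pvl_pv {l : ℕ} (hl : 1 ≤ l) (L : ℕ) (m : Fin L → Fin 10) :
    pvl l L m = pv L m + (l - 1) * (10 ^ (2 * L) + 1) := by
  unfold pvl pv
  obtain ⟨k, rfl⟩ : ∃ k, l = k + 1 := ⟨l - 1, by omega⟩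
  rw [Nat.add_sub_cancel]
  ring

/-- the counts with an arbitrary leading digit -/
lemma cnt_l {l : ℕ} (hl : 1 ≤ l) (L : ℕ) {q : ℕ} (hq : 1 ≤ q) (h : ℕ) : ∃ h', ∀ m : Fin L → Fin 10,
    pvl l L m ≡ h [MOD q] ↔ pv L m ≡ h' [MOD q] := by
  obtain ⟨X, hX⟩ : ∃ X, X = (l - 1) * (10 ^ (2 * L) + 1) := ⟨_, rfl⟩
  refine ⟨h + (q - 1) * X, fun m => ?_⟩
  rw [pvl_pv hl, ← hX]
  have h1 : pv L m + X + (q - 1) * X = pv L m + q * X := by
    obtain ⟨k, rfl⟩ : ∃ k, q = k + 1 := ⟨q - 1, by omega⟩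
    rw [Nat.add_sub_cancel]
    ring
  have h2 : pv L m + q * X ≡ pv L m [MOD q] := by
    unfold Nat.ModEq
    rw [Nat.add_mul_mod_self_left]
  constructor
  · intro h3
    have h4 := h3.add_right ((q - 1) * X)
    rw [h1] at h4
    exact h2.symm.trans h4
  · intro h3
    have h4 : pv L m + X + (q - 1) * X ≡ h + (q - 1) * X [MOD q] := by
      rw [h1]
      exact h2.trans h3
    exact Nat.ModEq.add_right_cancel' _ h4

/-- the Chinese remainder theorem for a set of primes -/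
lemma crt_set (U : Finset ℕ) (hU : ∀ p ∈ U, p.Prime) (a : ℕ → ℕ) : ∃ h, ∀ n : ℕ,
    (∀ p ∈ U, n ≡ a p [MOD p]) ↔ n ≡ h [MOD ∏ p ∈ U, p] := by
  have hpw : Set.Pairwise (U : Set ℕ) (Function.onFun Nat.Coprime (fun p => p)) := by
    intro p hp q hq hpq
    exact (Nat.coprime_primes (hU p hp) (hU q hq)).2 hpq
  obtain ⟨h, hh⟩ := Nat.chineseRemainderOfFinset a (fun p => p) U (fun p hp => (hU p hp).ne_zero) hpw
  refine ⟨h, fun n => ⟨fun hn => ?_, fun hn p hp => ?_⟩⟩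
  · rw [Nat.modEq_iff_dvd]
    push_cast
    refine Finset.prod_dvd_of_coprime ?_ ?_
    · intro p hp q hq hpq
      exact Nat.isCoprime_iff_coprime.2 (hpw hp hq hpq)
    · intro p hp
      exact Nat.modEq_iff_dvd.1 ((hn p hp).trans (hh p hp).symm)
  · exact (hn.of_dvd (dvd_prod_of_mem _ hp)).trans (hh p hp)

/-- the number of the palindromes in given classes modulo the primes in `U` -/
lemma cnt_set {l L : ℕ} (hl : 1 ≤ l) {E : ℕ → ℝ} (hE : ∀ q, 1 ≤ q → ∀ h, |cnt L q h - 10 ^ L / q| ≤ E q)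
    (U : Finset ℕ) (hU : ∀ p ∈ U, p.Prime) (a : ℕ → ℕ) :
    |(#{m : Fin L → Fin 10 | ∀ p ∈ U, pvl l L m ≡ a p [MOD p]} : ℝ) - 10 ^ L * ∏ p ∈ U, (1 / (p : ℝ))| ≤ E (∏ p ∈ U, p) := by
  obtain ⟨h, hh⟩ := crt_set U hU a
  have hq : 1 ≤ ∏ p ∈ U, p := Nat.pos_of_ne_zero (prod_ne_zero_iff.2 fun p hp => (hU p hp).ne_zero)
  obtain ⟨h', hh'⟩ := cnt_l hl L hq h
  have h1 := hE _ hq h'
  have e1 : (#{m : Fin L → Fin 10 | ∀ p ∈ U, pvl l L m ≡ a p [MOD p]} : ℝ) = cnt L (∏ p ∈ U, p) h' := by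
    unfold cnt
    congr 2
    refine filter_congr fun m _ => ?_
    rw [hh, hh']
  have e2 : (10 : ℝ) ^ L * ∏ p ∈ U, (1 / (p : ℝ)) = 10 ^ L / ((∏ p ∈ U, p : ℕ) : ℝ) := by
    push_cast
    rw [prod_div_distrib, prod_const_one, mul_one_div]
  rw [e1, e2]
  exact h1

/-- the small primes by inclusion and exclusion -/
lemma cnt_leg {l L : ℕ} (hl : 1 ≤ l) {E : ℕ → ℝ} (hE : ∀ q, 1 ≤ q → ∀ h, |cnt L q h - 10 ^ L / q| ≤ E q)
    (S T : Finset ℕ) (hS : ∀ p ∈ S, p.Prime) (hT : ∀ p ∈ T, p.Prime) (hST : Disjoint S T) (a : ℕ → ℕ) :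
    |(#{m : Fin L → Fin 10 | (∀ p ∈ S, ¬ pvl l L m ≡ a p [MOD p]) ∧ ∀ p ∈ T, pvl l L m ≡ a p [MOD p]} : ℝ) -
      10 ^ L * (∏ p ∈ S, (1 - 1 / (p : ℝ))) * ∏ p ∈ T, (1 / (p : ℝ))| ≤
      ∑ U ∈ S.powerset, E (∏ p ∈ U ∪ T, p) := by
  classical
  have e1 : (#{m : Fin L → Fin 10 | (∀ p ∈ S, ¬ pvl l L m ≡ a p [MOD p]) ∧ ∀ p ∈ T, pvl l L m ≡ a p [MOD p]} : ℝ) =
      ∑ U ∈ S.powerset, (-1) ^ #U * (#{m : Fin L → Fin 10 | ∀ p ∈ U ∪ T, pvl l L m ≡ a p [MOD p]} : ℝ) := by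
    have h1 : ∀ m : Fin L → Fin 10, (if (∀ p ∈ S, ¬ pvl l L m ≡ a p [MOD p]) ∧ ∀ p ∈ T, pvl l L m ≡ a p [MOD p] then (1 : ℝ) else 0) =
        ∑ U ∈ S.powerset, (-1) ^ #U * (if ∀ p ∈ U ∪ T, pvl l L m ≡ a p [MOD p] then (1 : ℝ) else 0) := by
      intro m
      by_cases hTm : ∀ p ∈ T, pvl l L m ≡ a p [MOD p]
      · have h2 : (if (∀ p ∈ S, ¬ pvl l L m ≡ a p [MOD p]) ∧ ∀ p ∈ T, pvl l L m ≡ a p [MOD p] then (1 : ℝ) else 0) =
            ∏ p ∈ S, (-(if pvl l L m ≡ a p [MOD p] then (1 : ℝ) else 0) + 1) := by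
          by_cases hSm : ∀ p ∈ S, ¬ pvl l L m ≡ a p [MOD p]
          · rw [if_pos ⟨hSm, hTm⟩, prod_congr rfl fun p hp => by rw [if_neg (hSm p hp), neg_zero, zero_add], prod_const_one]
          · rw [if_neg fun h => hSm h.1]
            push Not at hSm
            obtain ⟨p, hp, hpm⟩ := hSm
            rw [prod_eq_zero hp]
            rw [if_pos hpm]
            ring
        rw [h2, prod_add]
        refine sum_congr rfl fun U hU => ?_
        rw [prod_const_one, mul_one, prod_neg]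
        congr 1
        by_cases hUm : ∀ p ∈ U, pvl l L m ≡ a p [MOD p]
        · rw [if_pos, prod_congr rfl fun p hp => by rw [if_pos (hUm p hp)], prod_const_one]
          intro p hp
          rcases mem_union.1 hp with h | h
          · exact hUm p h
          · exact hTm p h
        · rw [if_neg fun h => hUm fun p hp => h p (mem_union_left _ hp)]
          push Not at hUm
          obtain ⟨p, hp, hpm⟩ := hUm
          rw [prod_eq_zero hp (if_neg hpm)]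
      · rw [if_neg fun h => hTm h.2]
        symm
        refine sum_eq_zero fun U _ => ?_
        rw [if_neg fun h => hTm fun p hp => h p (mem_union_right _ hp), mul_zero]
    rw [card_filter]
    push_cast
    rw [sum_congr rfl fun m _ => h1 m, sum_comm]
    refine sum_congr rfl fun U _ => ?_
    rw [← mul_sum, card_filter]
    push_cast
    rfl
  have e2 : (10 : ℝ) ^ L * (∏ p ∈ S, (1 - 1 / (p : ℝ))) * ∏ p ∈ T, (1 / (p : ℝ)) =
      ∑ U ∈ S.powerset, (-1) ^ #U * (10 ^ L * ∏ p ∈ U ∪ T, (1 / (p : ℝ))) := by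
    have h2 : ∏ p ∈ S, (1 - 1 / (p : ℝ)) = ∏ p ∈ S, (-(1 / (p : ℝ)) + 1) := prod_congr rfl fun p _ => by ring
    rw [h2, prod_add, mul_sum, sum_mul]
    refine sum_congr rfl fun U hU => ?_
    rw [prod_const_one, mul_one, prod_neg, prod_union (disjoint_of_subset_left (mem_powerset.1 hU) hST)]
    ring
  rw [e1, e2, ← sum_sub_distrib]
  refine (abs_sum_le_sum_abs _ _).trans (sum_le_sum fun U hU => ?_)
  rw [← mul_sub, abs_mul, abs_pow, abs_neg, abs_one, one_pow, one_mul]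
  refine cnt_set hl hE (U ∪ T) (fun p hp => ?_) a
  rcases mem_union.1 hp with h | h
  · exact hS p (mem_powerset.1 hU h)
  · exact hT p h

end Pool.Agent.L5helper86.PalR
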