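import Pool.Agent.H20R2.EN.FLem
import Pool.Agent.H373R2.T7.Fund
import Pool.Agent.L5helper2.RS.E4
import Pool.Agent.L5helper86.PalR.Cnt
/-! helper86: the fundamental lemma for palindromes. -/
set_option autoImplicit false
namespace Pool.Agent.L5helper86.PalR
open Finset Filter Topology
open Pool.Agent.H861R2.Pal (pvl)
open Pool.Agent.H476R2.Pal (pv fr cnt BV2)
open Pool.Agent.H373R2.T7 (JJ JJ_lt JJ_le JJ_small prod_inj)
open Pool.Agent.L5helper2.RS (Vp Vp_eq Vp_inv Vp_pos)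

/-- primes up to `w` other than `2` and `5` -/
def PT (w : ℕ) : Finset ℕ := (Icc 1 w).filter (fun p => p.Prime ∧ p ≠ 2 ∧ p ≠ 5)

/-- the product over these primes -/
noncomputable def VT (w : ℕ) : ℝ := ∏ p ∈ PT w, (1 - 1 / (p : ℝ))

lemma mem_PT {w p : ℕ} : p ∈ PT w ↔ p ≤ w ∧ p.Prime ∧ p ≠ 2 ∧ p ≠ 5 := by
  unfold PT
  rw [mem_filter, mem_Icc]
  constructor
  · rintro ⟨h1, h2⟩
    exact ⟨h1.2, h2⟩
  · rintro ⟨h1, h2⟩
    exact ⟨⟨h2.1.one_lt.le, h1⟩, h2⟩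

lemma PT_cop {w p : ℕ} (h : p ∈ PT w) : p.Coprime 10 := by
  rw [mem_PT] at h
  rw [Nat.Prime.coprime_iff_not_dvd h.2.1]
  intro h0
  have h1 : p ∣ 2 * 5 := h0
  rcases (Nat.Prime.dvd_mul h.2.1).1 h1 with h2 | h2
  · exact h.2.2.1 ((Nat.prime_dvd_prime_iff_eq h.2.1 Nat.prime_two).1 h2)
  · exact h.2.2.2 ((Nat.prime_dvd_prime_iff_eq h.2.1 Nat.prime_five).1 h2)

lemma fac_pos {p : ℕ} (hp : p.Prime) : 0 < 1 - 1 / (p : ℝ) := by
  have h2 : (2 : ℝ) ≤ p := by exact_mod_cast hp.two_le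
  have h1 : 1 / (p : ℝ) ≤ 1 / 2 := one_div_le_one_div_of_le (by norm_num) h2
  linarith

lemma fac_le (p : ℕ) : 1 - 1 / (p : ℝ) ≤ 1 := by
  have : 0 ≤ 1 / (p : ℝ) := by positivity
  linarith

lemma VT_pos (w : ℕ) : 0 < VT w := prod_pos fun _ hp => fac_pos (mem_PT.1 hp).2.1

lemma VT_ge (w : ℕ) : Vp w ≤ VT w := by
  rw [Vp_eq]
  unfold VT
  have hsub : PT w ⊆ (Icc 1 w).filter Nat.Prime := by
    intro p hp
    rw [mem_PT] at hp
    rw [mem_filter, mem_Icc]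
    exact ⟨⟨hp.2.1.one_lt.le, hp.1⟩, hp.2.1⟩
  rw [← prod_sdiff hsub]
  refine mul_le_of_le_one_left (prod_nonneg fun p hp => (fac_pos (mem_PT.1 hp).2.1).le) ?_
  refine prod_le_one (fun p hp => ?_) fun p _ => fac_le p
  exact (fac_pos (mem_filter.1 (Finset.mem_sdiff.1 hp).1).2).le

lemma log_small {w : ℕ → ℕ} (hwl : Tendsto (fun L : ℕ => Real.log (w L) / L) atTop (𝓝 0)) {η : ℝ} (hη : 0 < η) :
    ∀ᶠ L : ℕ in atTop, Real.log (w L) ≤ η * L := by
  filter_upwards [hwl.eventually_lt_const hη, eventually_ge_atTop 1] with L h1 h2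
  have hL0 : (0 : ℝ) < L := by exact_mod_cast h2
  rw [div_lt_iff₀ hL0] at h1
  exact h1.le

lemma VT_low {w : ℕ → ℕ} (hw : Tendsto w atTop atTop) (hwl : Tendsto (fun L : ℕ => Real.log (w L) / L) atTop (𝓝 0)) :
    ∀ᶠ L : ℕ in atTop, 1 / (L : ℝ) ≤ VT (w L) := by
  obtain ⟨K, hK, h⟩ := Vp_inv
  filter_upwards [hw.eventually h, log_small hwl (show (0 : ℝ) < 1 / K by positivity), eventually_ge_atTop 2] with L h1 h3 h4
  have hL0 : (0 : ℝ) < L := by
    have : (0 : ℕ) < L := by omega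
    exact_mod_cast this
  refine le_trans ?_ (VT_ge _)
  have hV := Vp_pos (w L)
  rw [div_le_iff₀ hL0]
  have h6 : (Vp (w L))⁻¹ ≤ L := by
    refine h1.trans ?_
    calc K * Real.log (w L) ≤ K * (1 / K * L) := by gcongr
      _ = L := by field_simp
  rw [inv_le_iff_one_le_mul₀ hV] at h6
  linarith

lemma poly_exp {w : ℕ → ℕ} (hw : Tendsto w atTop atTop) (hwl : Tendsto (fun L : ℕ => Real.log (w L) / L) atTop (𝓝 0))
    (K0 : ℕ) (k : ℕ) : ∀ᶠ L : ℕ in atTop, K0 * (w L) ^ k ≤ ⌊(10 : ℝ) ^ ((3 / 5 : ℝ) * L)⌋₊ := by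
  have h10 : 0 < Real.log 10 := Real.log_pos (by norm_num)
  filter_upwards [log_small hwl (show (0 : ℝ) < Real.log 10 / (10 * (k + 1)) by positivity), hw.eventually_ge_atTop 1,
    tendsto_natCast_atTop_atTop.eventually_ge_atTop (Real.log (K0 + 1) / (Real.log 10 / 2))] with L h1 h2 h3
  refine Nat.le_floor ?_
  push_cast
  have hw0 : (0 : ℝ) < w L := by exact_mod_cast h2
  have hlw : 0 ≤ Real.log (w L) := Real.log_nonneg (by exact_mod_cast h2)
  have hK : (0 : ℝ) < (K0 : ℝ) + 1 := by positivity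
  have h4 : Real.log (((K0 : ℝ) + 1) * (w L : ℝ) ^ k) ≤ (3 / 5 : ℝ) * L * Real.log 10 := by
    rw [Real.log_mul hK.ne' (by positivity), Real.log_pow]
    rw [div_le_iff₀ (by positivity)] at h3
    have h5 : (k : ℝ) * Real.log (w L) ≤ Real.log 10 / 10 * L := by
      calc (k : ℝ) * Real.log (w L) ≤ (k + 1) * (Real.log 10 / (10 * (k + 1)) * L) := by
            refine mul_le_mul (by linarith) h1 hlw (by positivity)
        _ = _ := by field_simp
    nlinarith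
  have h6 : ((K0 : ℝ) + 1) * (w L : ℝ) ^ k ≤ (10 : ℝ) ^ ((3 / 5 : ℝ) * L) := by
    rw [Real.rpow_def_of_pos (by norm_num), ← Real.log_le_iff_le_exp (by positivity)]
    linarith
  refine le_trans ?_ h6
  have : (0 : ℝ) ≤ (w L : ℝ) ^ k := by positivity
  nlinarith

lemma J_small {w : ℕ → ℕ} (hw : Tendsto w atTop atTop) (hwl : Tendsto (fun L : ℕ => Real.log (w L) / L) atTop (𝓝 0)) :
    ∀ᶠ L : ℕ in atTop, (JJ (w L) : ℝ) + 2 ≤ L := by
  filter_upwards [log_small hwl (show (0 : ℝ) < 1 / 4 by positivity), hw.eventually_ge_atTop 1,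
    eventually_ge_atTop 6] with L h1 h2 h3
  have h4 : JJ (w L) ≤ Nat.log 2 (w L) + 1 := by
    unfold JJ
    have := Nat.log_le_self 2 (Nat.log 2 (w L))
    omega
  have h5 : (Nat.log 2 (w L) : ℝ) * Real.log 2 ≤ Real.log (w L) := by
    have h6 : (2 : ℝ) ^ Nat.log 2 (w L) ≤ w L := by
      exact_mod_cast Nat.pow_log_le_self 2 (by omega : w L ≠ 0)
    have h7 := Real.log_le_log (by positivity) h6
    rwa [Real.log_pow] at h7
  have hlog2 : 1 / 2 < Real.log 2 := by have := Real.log_two_gt_d9; linarith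
  have h8 : (JJ (w L) : ℝ) ≤ Nat.log 2 (w L) + 1 := by exact_mod_cast h4
  have h9 : (0 : ℝ) ≤ Nat.log 2 (w L) := Nat.cast_nonneg _
  have h10 : (6 : ℝ) ≤ L := by exact_mod_cast h3
  nlinarith

open Classical in
theorem Tpart {w : ℕ → ℕ} (hw : Tendsto w atTop atTop) (hwl : Tendsto (fun L : ℕ => Real.log (w L) / L) atTop (𝓝 0))
    (ε : ℝ) (hε : 0 < ε) : ∀ᶠ L : ℕ in atTop, ∀ l, 1 ≤ l → l ≤ 9 → ∀ a : ℕ → ℕ,
    |(#{m : Fin L → Fin 10 | ∀ p ∈ PT (w L), ¬ pvl l L m ≡ a p [MOD p]} : ℝ) - 10 ^ L * VT (w L)| ≤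
      ε * (10 ^ L * VT (w L)) := by
  classical
  obtain ⟨C0, hC0, hFL⟩ := Pool.Agent.H20R2.fLem 1
  obtain ⟨b1, hb1⟩ := exists_pow_lt_of_lt_one (half_pos hε) (show (1 / 2 : ℝ) < 1 by norm_num)
  obtain ⟨b, hb⟩ : ∃ b, b = max C0 b1 := ⟨_, rfl⟩
  have hbC : C0 ≤ b := by rw [hb]; exact le_max_left _ _
  have hb1' : 1 ≤ b := hC0.trans hbC
  have hbε : (1 / 2 : ℝ) ^ b ≤ ε / 2 := by
    rw [hb]
    exact (pow_le_pow_of_le_one (by norm_num) (by norm_num) (le_max_right _ _)).trans hb1.le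
  obtain ⟨z0, hz0⟩ : ∃ z0, z0 = C0 + 5 := ⟨_, rfl⟩
  obtain ⟨S, hS⟩ : ∃ S, S = PT z0 := ⟨_, rfl⟩
  obtain ⟨K0, hK0⟩ : ∃ K0, K0 = ∏ p ∈ S, p := ⟨_, rfl⟩
  have h2L : ∀ᶠ L : ℕ in atTop, (4 / ε : ℝ) ≤ L := tendsto_natCast_atTop_atTop.eventually_ge_atTop _
  filter_upwards [Emax 3, hw.eventually_ge_atTop (z0 + 3), poly_exp hw hwl K0 (2 * (C0 * b)), VT_low hw hwl, h2L,
    J_small hw hwl, eventually_ge_atTop 1] with L hE hLz hpoly hVlow hLε hJs hL1
  intro l hl1 hl9 a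
  obtain ⟨E, hE0, hE1, hE2⟩ := hE
  obtain ⟨w, hww⟩ : ∃ w', w' = w L := ⟨_, rfl⟩
  rw [← hww] at hVlow hLz hpoly hJs ⊢
  obtain ⟨J, hJ⟩ : ∃ J, J = JJ w := ⟨_, rfl⟩
  obtain ⟨Y, hY⟩ : ∃ Y : ℕ, Y = 2 ^ 2 ^ J := ⟨_, rfl⟩
  have hwY : w < Y := by rw [hY, hJ]; exact JJ_lt w
  have hYw : Y ≤ w ^ 2 := by rw [hY, hJ]; exact JJ_le w (by omega)
  obtain ⟨P, hP⟩ : ∃ P, P = (PT w).filter (fun p => z0 < p) := ⟨_, rfl⟩
  have hPp : ∀ p ∈ P, p.Prime ∧ z0 < p ∧ p ≤ 2 ^ 2 ^ J := by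
    intro p hp
    rw [hP, mem_filter, mem_PT] at hp
    rw [← hY]
    exact ⟨hp.1.2.1, hp.2, by omega⟩
  have hSp : ∀ p ∈ S, p.Prime := fun p hp => by rw [hS, mem_PT] at hp; exact hp.2.1
  have hPTu : PT w = S ∪ P := by
    ext p
    rw [mem_union, hP, hS, mem_filter, mem_PT, mem_PT]
    constructor
    · rintro ⟨h1, h2⟩
      rcases Nat.lt_or_ge z0 p with h | h
      · exact Or.inr ⟨⟨h1, h2⟩, h⟩
      · exact Or.inl ⟨h, h2⟩
    · rintro (⟨h1, h2⟩ | ⟨h1, _⟩)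
      · exact ⟨by omega, h2⟩
      · exact h1
  have hdisj : Disjoint S P := by
    rw [disjoint_left]
    intro p hp hp'
    rw [hP, mem_filter] at hp'
    rw [hS, mem_PT] at hp
    omega
  have hinj : Function.Injective (fun m : Fin L → Fin 10 => pvl l L m) := by
    intro m m' h
    have h8 := Pool.Agent.H861R2.Pal.pvl_inj L hL1 (x₁ := (l, m)) (x₂ := (l, m')) hl9 hl9 h
    exact (Prod.mk.inj h8).2
  obtain ⟨Ω, hΩ⟩ : ∃ Ω : Finset ℕ, Ω = (univ.image (fun m : Fin L → Fin 10 => pvl l L m)).filter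
      (fun n => ∀ p ∈ S, ¬ n ≡ a p [MOD p]) := ⟨_, rfl⟩
  have hΩc : ∀ (Q : ℕ → Prop) (inst : DecidablePred Q), ∑ n ∈ Ω.filter Q, (1 : ℝ) =
      (#{m : Fin L → Fin 10 | (∀ p ∈ S, ¬ pvl l L m ≡ a p [MOD p]) ∧ Q (pvl l L m)} : ℝ) := by
    intro Q inst
    rw [sum_const, nsmul_eq_mul, mul_one, hΩ, filter_filter, filter_image, card_image_of_injective _ hinj]
  obtain ⟨A, hA⟩ : ∃ A : ℝ, A = 10 ^ L * ∏ p ∈ S, (1 - 1 / (p : ℝ)) := ⟨_, rfl⟩
  have hA0 : 0 ≤ A := by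
    rw [hA]
    exact mul_nonneg (by positivity) (prod_nonneg fun p hp => (fac_pos (hSp p hp)).le)
  have key := hFL b J z0 P (fun p => 1 / (p : ℝ)) hbC (by omega) hPp (fun p hp => by
      have hp1 : (1 : ℝ) < p := by exact_mod_cast (hPp p hp).1.one_lt
      refine ⟨by positivity, ?_⟩
      push_cast
      exact one_div_le_one_div_of_le (by linarith) (by linarith))
    Ω (fun _ => (1 : ℝ)) (fun p n => n ≡ a p [MOD p]) A (fun T => ∑ U ∈ S.powerset, E (∏ p ∈ U ∪ T, p))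
    (fun _ _ => zero_le_one) hA0 (by
      intro T hT _
      rw [hΩc, hA]
      have h1 := cnt_leg hl1 hE1 S T hSp (fun p hp => (hPp p (hT hp)).1) (disjoint_of_subset_right hT hdisj) a
      convert h1)
  have e1 : ∀ (inst : DecidablePred (fun n => ∀ p ∈ P, ¬ n ≡ a p [MOD p])) (inst2 : DecidablePred
      (fun m : Fin L → Fin 10 => ∀ p ∈ PT w, ¬ pvl l L m ≡ a p [MOD p])),
      ∑ n ∈ Ω.filter (fun n => ∀ p ∈ P, ¬ n ≡ a p [MOD p]), (1 : ℝ) =
      ((univ.filter (fun m : Fin L → Fin 10 => ∀ p ∈ PT w, ¬ pvl l L m ≡ a p [MOD p])).card : ℝ) := by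
    intro inst inst2
    rw [hΩc _ inst]
    congr 2
    refine filter_congr fun m _ => ?_
    rw [hPTu]
    constructor
    · rintro ⟨h1, h2⟩ p hp
      rcases mem_union.1 hp with h | h
      · exact h1 p h
      · exact h2 p h
    · intro h
      exact ⟨fun p hp => h p (mem_union_left _ hp), fun p hp => h p (mem_union_right _ hp)⟩
  have e2 : A * ∏ p ∈ P, (1 - 1 / (p : ℝ)) = 10 ^ L * VT w := by
    unfold VT
    rw [hA, hPTu, prod_union hdisj, mul_assoc]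
  rw [e2] at key
  refine le_trans (le_of_eq ?_) (key.trans ?_)
  · exact (congrArg (fun x : ℝ => |x - 10 ^ L * VT w|) (e1 _ _)).symm
  have hM0 : 0 ≤ (10 : ℝ) ^ L * VT w := mul_nonneg (by positivity) (VT_pos w).le
  have hfin : ((J : ℝ) + 2) * ∑ T ∈ P.powerset.filter (fun T : Finset ℕ => ∏ p ∈ T, p ≤ (2 ^ 2 ^ J) ^ (C0 * b)),
      ∑ U ∈ S.powerset, E (∏ p ∈ U ∪ T, p) ≤ ε / 2 * (10 ^ L * VT w) := by
    -- the sum of the errors
    have h1 : ∑ T ∈ P.powerset.filter (fun T : Finset ℕ => ∏ p ∈ T, p ≤ (2 ^ 2 ^ J) ^ (C0 * b)),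
      ∑ U ∈ S.powerset, E (∏ p ∈ U ∪ T, p) ≤ 10 ^ L / (L : ℝ) ^ 3 := by
      refine le_trans ?_ hE2
      rw [← sum_product']
      have hmem : ∀ x ∈ (P.powerset.filter (fun T : Finset ℕ => ∏ p ∈ T, p ≤ (2 ^ 2 ^ J) ^ (C0 * b))) ×ˢ S.powerset,
          x.1 ⊆ P ∧ x.2 ⊆ S ∧ ∏ p ∈ x.1, p ≤ Y ^ (C0 * b) := by
        intro x hx
        rw [mem_product, mem_filter, mem_powerset, mem_powerset, ← hY] at hx
        exact ⟨hx.1.1, hx.2, hx.1.2⟩
      have hpr : ∀ x ∈ (P.powerset.filter (fun T : Finset ℕ => ∏ p ∈ T, p ≤ (2 ^ 2 ^ J) ^ (C0 * b))) ×ˢ S.powerset,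
          ∀ p ∈ x.2 ∪ x.1, p ∈ PT w := by
        intro x hx p hp
        obtain ⟨h2, h3, _⟩ := hmem x hx
        rw [hPTu]
        rcases mem_union.1 hp with h | h
        · exact mem_union_left _ (h3 h)
        · exact mem_union_right _ (h2 h)
      have hinj2 : Set.InjOn (fun x : Finset ℕ × Finset ℕ => ∏ p ∈ x.2 ∪ x.1, p)
          ((P.powerset.filter (fun T : Finset ℕ => ∏ p ∈ T, p ≤ (2 ^ 2 ^ J) ^ (C0 * b))) ×ˢ S.powerset :
            Finset (Finset ℕ × Finset ℕ)) := by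
        intro x hx y hy hxy
        rw [mem_coe] at hx hy
        have h2 : x.2 ∪ x.1 = y.2 ∪ y.1 := prod_inj _ _ (fun p hp => (mem_PT.1 (hpr x hx p hp)).2.1)
          (fun p hp => (mem_PT.1 (hpr y hy p hp)).2.1) hxy
        obtain ⟨a1, a2, _⟩ := hmem x hx
        obtain ⟨b1, b2, _⟩ := hmem y hy
        rw [disjoint_left] at hdisj
        have h3 := Finset.ext_iff.1 h2
        refine Prod.ext (Finset.ext fun p => ?_) (Finset.ext fun p => ?_)
        · have h4 := h3 p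
          rw [mem_union, mem_union] at h4
          constructor
          · intro h5
            rcases h4.1 (Or.inr h5) with h6 | h6
            · exact absurd (a1 h5) (hdisj (b2 h6))
            · exact h6
          · intro h5
            rcases h4.2 (Or.inr h5) with h6 | h6
            · exact absurd (b1 h5) (hdisj (a2 h6))
            · exact h6
        · have h4 := h3 p
          rw [mem_union, mem_union] at h4
          constructor
          · intro h5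
            rcases h4.1 (Or.inl h5) with h6 | h6
            · exact h6
            · exact absurd (b1 h6) (hdisj (a2 h5))
          · intro h5
            rcases h4.2 (Or.inl h5) with h6 | h6
            · exact h6
            · exact absurd (a1 h6) (hdisj (b2 h5))
      rw [← sum_image (f := E) hinj2]
      refine sum_le_sum_of_subset_of_nonneg ?_ fun q _ _ => hE0 q
      intro q hq
      rw [mem_image] at hq
      obtain ⟨x, hx, rfl⟩ := hq
      obtain ⟨a1, a2, a3⟩ := hmem x hx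
      rw [mem_filter, mem_Icc]
      refine ⟨⟨?_, ?_⟩, ?_⟩
      · exact Nat.pos_of_ne_zero (prod_ne_zero_iff.2 fun p hp => (mem_PT.1 (hpr x hx p hp)).2.1.ne_zero)
      · refine le_trans ?_ hpoly
        rw [prod_union (disjoint_of_subset_left a2 (disjoint_of_subset_right a1 hdisj))]
        refine Nat.mul_le_mul ?_ ?_
        · rw [hK0]
          refine Nat.le_of_dvd (Nat.pos_of_ne_zero (prod_ne_zero_iff.2 fun p hp => (hSp p hp).ne_zero)) ?_
          exact prod_dvd_prod_of_subset _ _ _ a2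
        · refine a3.trans ?_
          calc Y ^ (C0 * b) ≤ (w ^ 2) ^ (C0 * b) := Nat.pow_le_pow_left hYw _
            _ = w ^ (2 * (C0 * b)) := by
              rw [← pow_mul]
      · exact Nat.Coprime.prod_left fun p hp => PT_cop (hpr x hx p hp)
    have hJw : (J : ℝ) + 2 ≤ L := by
      rw [hJ]
      exact hJs
    have hL0 : (0 : ℝ) < L := by exact_mod_cast hL1
    calc _ ≤ (L : ℝ) * (10 ^ L / (L : ℝ) ^ 3) := by
          refine mul_le_mul hJw h1 (sum_nonneg fun T _ => sum_nonneg fun U _ => hE0 _) (by positivity)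
      _ = 10 ^ L * (1 / (L : ℝ) ^ 2) := by field_simp
      _ ≤ 10 ^ L * (ε / 2 * VT w) := by
          refine mul_le_mul_of_nonneg_left ?_ (by positivity)
          calc 1 / (L : ℝ) ^ 2 = (1 / L) * (1 / L) := by field_simp
            _ ≤ (ε / 2) * (1 / L) := by
              refine mul_le_mul_of_nonneg_right ?_ (by positivity)
              rw [div_le_div_iff₀ hL0 (by norm_num)]
              rw [div_le_iff₀ hε] at hLε
              linarith
            _ ≤ ε / 2 * VT w := mul_le_mul_of_nonneg_left hVlow (by positivity)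
      _ = _ := by ring
  have := mul_le_mul_of_nonneg_right hbε hM0
  linarith

end Pool.Agent.L5helper86.PalR
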