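import Pool.Agent.L5helper2.RS.E4
import Pool.Agent.L5helper86.PalR.Coll
/-! helper86: the variance for palindromes. -/
set_option autoImplicit false
namespace Pool.Agent.L5helper86.PalR
open Finset MeasureTheory ProbabilityTheory
open Pool.Agent.H861R2.Pal (pvl)
open Pool.Agent.L5helper2.RS

lemma cop10 {p : ℕ} (hp : p.Prime) (h5 : 5 < p) : p.Coprime 10 := by
  rw [Nat.Prime.coprime_iff_not_dvd hp]
  intro h
  have h1 : p ∣ 2 * 5 := h
  rcases (Nat.Prime.dvd_mul hp).1 h1 with h2 | h2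
  · have := Nat.le_of_dvd (by norm_num) h2
    omega
  · have := Nat.le_of_dvd (by norm_num) h2
    omega

open Classical in
/-- the variance -/
theorem var_pal : ∃ (C : ℝ) (w0 : ℕ), 0 ≤ C ∧ 5 ≤ w0 ∧ ∀ w : ℕ, w0 ≤ w → ∀ (l L : ℕ), 1 ≤ L → l ≤ 9 →
    ∀ (z : (Fin L → Fin 10) → ℕ) (zm : ℕ), (∀ m, zm ≤ z m) →
    ∑ m : Fin L → Fin 10, ∑ m' : Fin L → Fin 10, Vs pp (Jx 1 w (z m)) * Vs pp (Jx 1 w (z m')) *
      (∏ j ∈ Jx 1 w (z m) ∩ Jx 1 w (z m'), rf pp (fun _ => (pvl l L m : ℤ)) (fun _ => (pvl l L m' : ℤ)) j - 1) ≤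
    C * (w : ℝ) ^ (-(1 / 8) : ℝ) * (10 ^ L * Vs pp (Jx 1 w zm)) ^ 2 + 10 ^ L * Vs pp (Jx 1 w zm) := by
  obtain ⟨w0, hw02, hlin⟩ := lin_bound4 1
  have hs1 : Summable (fun n : ℕ => (n : ℝ) ^ (-(9 / 8) : ℝ)) := Real.summable_nat_rpow.2 (by norm_num)
  obtain ⟨S, hS⟩ : ∃ S : ℝ, S = ∑' n : ℕ, (n : ℝ) ^ (-(9 / 8) : ℝ) := ⟨_, rfl⟩
  have hS0 : 0 ≤ S := by rw [hS]; exact tsum_nonneg fun n => by positivity
  refine ⟨√10 * S, max w0 5, by positivity, le_max_right _ _, fun w hw l L hL hl z zm hz => ?_⟩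
  have hp := pp_two (k := 1)
  have hww : (w0 : ℕ) ≤ w := (le_max_left _ _).trans hw
  have hw5 : 5 ≤ w := (le_max_right _ _).trans hw
  have hw0 : 0 < w := by omega
  have hwr : (0 : ℝ) < w := by exact_mod_cast hw0
  obtain ⟨v, hv⟩ : ∃ v : (Fin L → Fin 10) → ℤ, v = fun m => (pvl l L m : ℤ) := ⟨_, rfl⟩
  have hv' : ∀ m, (pvl l L m : ℤ) = v m := fun m => by rw [hv]
  simp only [hv']
  obtain ⟨V, hV⟩ : ∃ V : ℝ, V = Vs pp (Jx 1 w zm) := ⟨_, rfl⟩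
  have hV0 : 0 < V := by rw [hV]; exact Vs_pos hp _
  have hu : ∀ m, Vs pp (Jx 1 w (z m)) ≤ V := by
    intro m
    rw [hV]
    refine Vs_anti hp ?_
    intro j hj
    rw [mem_Jx] at hj ⊢
    exact ⟨hj.1, hj.2.trans (hz m)⟩
  have hu0 : ∀ m, 0 < Vs pp (Jx 1 w (z m)) := fun m => Vs_pos hp _
  rw [← hV]
  obtain ⟨J, hJ⟩ : ∃ J : Finset (Ix 1), J = Jx 1 w (10 ^ (2 * L + 1)) := ⟨_, rfl⟩
  -- the pointwise bound
  have hpt : ∀ m m' : Fin L → Fin 10, Vs pp (Jx 1 w (z m)) * Vs pp (Jx 1 w (z m')) *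
      (∏ j ∈ Jx 1 w (z m) ∩ Jx 1 w (z m'), rf pp (fun _ => v m) (fun _ => v m') j - 1) ≤
      (if m = m' then V else 0) + V ^ 2 * ∑ j ∈ J, (if (pp j : ℤ) ∣ v m - v m' then (pp j : ℝ) ^ (-(3 / 4) : ℝ) else 0) := by
    intro m m'
    have hsum0 : 0 ≤ ∑ j ∈ J, (if (pp j : ℤ) ∣ v m - v m' then (pp j : ℝ) ^ (-(3 / 4) : ℝ) else 0) := by
      refine sum_nonneg fun j _ => ?_
      split_ifs
      · positivity
      · exact le_rfl
    by_cases hmm : m = m'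
    · subst hmm
      rw [if_pos rfl, inter_self]
      have e : ∏ j ∈ Jx 1 w (z m), rf pp (fun _ => v m) (fun _ => v m) j = (Vs pp (Jx 1 w (z m)))⁻¹ := by
        unfold Vs
        rw [← prod_inv_distrib]
        refine prod_congr rfl fun j _ => ?_
        unfold rf
        rw [if_pos (by rw [sub_self]; exact dvd_zero _)]
      rw [e]
      have h1 := hu0 m
      have h3 : Vs pp (Jx 1 w (z m)) * Vs pp (Jx 1 w (z m)) * ((Vs pp (Jx 1 w (z m)))⁻¹ - 1) =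
        Vs pp (Jx 1 w (z m)) - Vs pp (Jx 1 w (z m)) ^ 2 := by
        field_simp
      rw [h3]
      have h4 := hu m
      have h5 : 0 ≤ V ^ 2 * ∑ j ∈ J, (if (pp j : ℤ) ∣ v m - v m then (pp j : ℝ) ^ (-(3 / 4) : ℝ) else 0) :=
        mul_nonneg (by positivity) hsum0
      nlinarith [sq_nonneg (Vs pp (Jx 1 w (z m)))]
    · rw [if_neg hmm, zero_add]
      obtain ⟨I, hI⟩ : ∃ I : Finset (Ix 1), I = (Jx 1 w (z m) ∩ Jx 1 w (z m')).filter
        (fun j => (pp j : ℤ) ∣ v m - v m') := ⟨_, rfl⟩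
      have e1 : ∏ j ∈ Jx 1 w (z m) ∩ Jx 1 w (z m'), rf pp (fun _ => v m) (fun _ => v m') j =
          ∏ j ∈ I, (1 - 1 / (pp j : ℝ))⁻¹ := by
        rw [hI, prod_filter]
        refine prod_congr rfl fun j _ => ?_
        unfold rf
        rfl
      have h1 : ∏ j ∈ I, (1 - 1 / (pp j : ℝ))⁻¹ ≤ 1 + ∑ j ∈ I, (pp j : ℝ) ^ (-(3 / 4) : ℝ) := by
        refine hlin I fun j hj => ?_
        rw [hI, mem_filter, mem_inter, mem_Jx] at hj
        exact lt_of_le_of_lt hww hj.1.1.1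
      have h2 : ∑ j ∈ I, (pp j : ℝ) ^ (-(3 / 4) : ℝ) ≤
          ∑ j ∈ J, (if (pp j : ℤ) ∣ v m - v m' then (pp j : ℝ) ^ (-(3 / 4) : ℝ) else 0) := by
        rw [← sum_filter]
        refine sum_le_sum_of_subset_of_nonneg ?_ fun j _ _ => by positivity
        intro j hj
        rw [hI, mem_filter, mem_inter, mem_Jx, mem_Jx] at hj
        rw [mem_filter, hJ, mem_Jx]
        refine ⟨⟨hj.1.1.1, ?_⟩, hj.2⟩
        by_contra hc
        rw [not_le] at hc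
        have h3 := hj.2
        rw [hv] at h3
        exact hmm (coll3 hL hl hc.le m m' h3)
      have h3 : ∏ j ∈ Jx 1 w (z m) ∩ Jx 1 w (z m'), rf pp (fun _ => v m) (fun _ => v m') j - 1 ≤
          ∑ j ∈ J, (if (pp j : ℤ) ∣ v m - v m' then (pp j : ℝ) ^ (-(3 / 4) : ℝ) else 0) := by
        rw [e1]
        linarith
      have h4 : Vs pp (Jx 1 w (z m)) * Vs pp (Jx 1 w (z m')) ≤ V ^ 2 := by
        rw [sq]
        exact mul_le_mul (hu m) (hu m') (hu0 m').le hV0.le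
      calc _ ≤ Vs pp (Jx 1 w (z m)) * Vs pp (Jx 1 w (z m')) *
            ∑ j ∈ J, (if (pp j : ℤ) ∣ v m - v m' then (pp j : ℝ) ^ (-(3 / 4) : ℝ) else 0) :=
            mul_le_mul_of_nonneg_left h3 (mul_pos (hu0 m) (hu0 m')).le
        _ ≤ _ := mul_le_mul_of_nonneg_right h4 hsum0
  -- the sum over the pairs
  refine (sum_le_sum fun m _ => sum_le_sum fun m' _ => hpt m m').trans ?_
  have hcard : ((#(univ : Finset (Fin L → Fin 10)) : ℕ) : ℝ) = 10 ^ L := by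
    rw [card_all]
    push_cast
    rfl
  have e2 : ∑ m : Fin L → Fin 10, ∑ m' : Fin L → Fin 10, ((if m = m' then V else 0) + V ^ 2 *
      ∑ j ∈ J, (if (pp j : ℤ) ∣ v m - v m' then (pp j : ℝ) ^ (-(3 / 4) : ℝ) else 0)) =
      10 ^ L * V + V ^ 2 * ∑ j ∈ J, (pp j : ℝ) ^ (-(3 / 4) : ℝ) *
        ∑ m' : Fin L → Fin 10, (#{m : Fin L → Fin 10 | (pp j : ℤ) ∣ v m - v m'} : ℝ) := by
    simp_rw [sum_add_distrib]
    congr 1
    · simp_rw [sum_ite_eq, mem_univ, if_true]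
      rw [sum_const, nsmul_eq_mul, hcard]
    · simp_rw [← mul_sum]
      congr 1
      rw [sum_comm, sum_congr rfl fun m' _ => sum_comm, sum_comm]
      refine sum_congr rfl fun j _ => ?_
      rw [mul_sum]
      refine sum_congr rfl fun m' _ => ?_
      rw [← sum_filter, sum_const, nsmul_eq_mul, mul_comm]
  rw [e2, add_comm]
  refine add_le_add ?_ le_rfl
  have h5 : ∀ j ∈ J, (pp j : ℝ) ^ (-(3 / 4) : ℝ) *
        ∑ m' : Fin L → Fin 10, (#{m : Fin L → Fin 10 | (pp j : ℤ) ∣ v m - v m'} : ℝ) ≤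
        (10 ^ L) ^ 2 * √10 * (w : ℝ) ^ (-(1 / 8) : ℝ) * (pp j : ℝ) ^ (-(9 / 8) : ℝ) := by
    intro j hj
    rw [hJ, mem_Jx] at hj
    have hj0 : (0 : ℝ) < pp j := by
      have : 0 < pp j := by omega
      exact_mod_cast this
    have hwj : (w : ℝ) ≤ pp j := by exact_mod_cast hj.1.le
    have h6 : ∑ m' : Fin L → Fin 10, (#{m : Fin L → Fin 10 | (pp j : ℤ) ∣ v m - v m'} : ℝ) ≤
        ∑ _m' : Fin L → Fin 10, (10 : ℝ) ^ L * (√10 / √(pp j)) := by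
      refine sum_le_sum fun m' _ => ?_
      have := coll2 l L (pp j) (cop10 j.1.2 (show 5 < pp j by omega)) (by omega) hj.2 (v m')
      rw [hv]
      rw [hv] at this
      exact this
    rw [sum_const, nsmul_eq_mul, hcard] at h6
    have h7 : (pp j : ℝ) ^ (-(3 / 4) : ℝ) * (1 / √(pp j)) ≤ (w : ℝ) ^ (-(1 / 8) : ℝ) * (pp j : ℝ) ^ (-(9 / 8) : ℝ) := by
      have h8 : (pp j : ℝ) ^ (-(3 / 4) : ℝ) * (1 / √(pp j)) = (pp j : ℝ) ^ (-(1 / 8) : ℝ) * (pp j : ℝ) ^ (-(9 / 8) : ℝ) := by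
        rw [Real.sqrt_eq_rpow, one_div, ← Real.rpow_neg hj0.le, ← Real.rpow_add hj0, ← Real.rpow_add hj0]
        norm_num
      rw [h8]
      exact mul_le_mul_of_nonneg_right (Real.rpow_le_rpow_of_nonpos hwr hwj (by norm_num)) (by positivity)
    calc _ ≤ (pp j : ℝ) ^ (-(3 / 4) : ℝ) * (10 ^ L * (10 ^ L * (√10 / √(pp j)))) :=
          mul_le_mul_of_nonneg_left h6 (by positivity)
      _ = (10 ^ L) ^ 2 * √10 * ((pp j : ℝ) ^ (-(3 / 4) : ℝ) * (1 / √(pp j))) := by ring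
      _ ≤ (10 ^ L) ^ 2 * √10 * ((w : ℝ) ^ (-(1 / 8) : ℝ) * (pp j : ℝ) ^ (-(9 / 8) : ℝ)) :=
          mul_le_mul_of_nonneg_left h7 (by positivity)
      _ = _ := by ring
  have h8 : ∑ j ∈ J, (pp j : ℝ) ^ (-(9 / 8) : ℝ) ≤ S := by
    have hinj : Set.InjOn (fun j : Ix 1 => pp j) (J : Set (Ix 1)) := by
      intro i _ j _ hij
      have h4 : i.1 = j.1 := Subtype.ext hij
      exact Prod.ext h4 (Subsingleton.elim _ _)
    rw [← sum_image (f := fun n : ℕ => (n : ℝ) ^ (-(9 / 8) : ℝ)) hinj, hS]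
    exact hs1.sum_le_tsum _ fun n _ => by positivity
  have h9 : ∑ j ∈ J, (pp j : ℝ) ^ (-(3 / 4) : ℝ) *
        ∑ m' : Fin L → Fin 10, (#{m : Fin L → Fin 10 | (pp j : ℤ) ∣ v m - v m'} : ℝ) ≤
      (10 ^ L) ^ 2 * √10 * (w : ℝ) ^ (-(1 / 8) : ℝ) * S := by
    refine (sum_le_sum h5).trans ?_
    rw [← mul_sum]
    exact mul_le_mul_of_nonneg_left h8 (by positivity)
  calc _ ≤ V ^ 2 * ((10 ^ L) ^ 2 * √10 * (w : ℝ) ^ (-(1 / 8) : ℝ) * S) :=
        mul_le_mul_of_nonneg_left h9 (by positivity)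
    _ = _ := by ring

end Pool.Agent.L5helper86.PalR
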