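import Pool.Agent.L5helper86.PalR.Fund
import Pool.Agent.L5helper86.PalR.Var
/-! helper86: the law for palindromes which avoid random residue classes (one leading digit, one exponent). -/
set_option autoImplicit false
namespace Pool.Agent.L5helper86.PalR
open Finset Filter Topology MeasureTheory ProbabilityTheory
open Pool.Agent.H861R2.Pal (pvl)
open Pool.Agent.L5helper2.RS

variable {Ω : Type} [MeasurableSpace Ω] {P : Measure Ω} {X : Ix 1 → Ω → ℕ}

/-- the level of an integer -/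
noncomputable def zf (c : ℝ) (n : ℕ) : ℕ := ⌊(n : ℝ) ^ c⌋₊

lemma zf_mono {c : ℝ} (hc : 0 < c) : Monotone (zf c) := by
  intro a b hab
  unfold zf
  exact Nat.floor_mono (Real.rpow_le_rpow (by positivity) (by exact_mod_cast hab) hc.le)

/-- the two auxiliary levels -/
noncomputable def zlo (c : ℝ) (L : ℕ) : ℕ := zf c (10 ^ (2 * L))
noncomputable def zhi (c : ℝ) (L : ℕ) : ℕ := zf c (10 ^ (2 * L + 1))

lemma z_bounds {c : ℝ} (hc : 0 < c) {l L : ℕ} (hL : 1 ≤ L) (hl1 : 1 ≤ l) (hl9 : l ≤ 9) (m : Fin L → Fin 10) :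
    zlo c L ≤ zf c (pvl l L m) ∧ zf c (pvl l L m) ≤ zhi c L :=
  ⟨zf_mono hc (pvl_ge hl1 m), zf_mono hc (pvl_lt hL hl9 m).le⟩

/-- the expected density -/
noncomputable def kap (c : ℝ) : ℝ := 5 * Real.exp (-Real.eulerMascheroniConstant) / (4 * (c * Real.log 10))

lemma VT_Vp {w : ℕ} (hw : 5 ≤ w) : VT w = 5 / 2 * Vp w := by
  classical
  rw [Vp_eq]
  unfold VT
  have e : (Icc 1 w).filter Nat.Prime = insert 2 (insert 5 (PT w)) := by
    ext p
    rw [mem_insert, mem_insert, mem_filter, mem_Icc, mem_PT]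
    constructor
    · rintro ⟨⟨h1, h2⟩, h3⟩
      by_cases h4 : p = 2
      · exact Or.inl h4
      · by_cases h5 : p = 5
        · exact Or.inr (Or.inl h5)
        · exact Or.inr (Or.inr ⟨h2, h3, h4, h5⟩)
    · rintro (h | h | ⟨h1, h2, _⟩)
      · subst h
        exact ⟨⟨by norm_num, by omega⟩, Nat.prime_two⟩
      · subst h
        exact ⟨⟨by norm_num, hw⟩, Nat.prime_five⟩
      · exact ⟨⟨h2.one_lt.le, h1⟩, h2⟩
  have h5 : (5 : ℕ) ∉ PT w := by
    rw [mem_PT]
    tauto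
  have h2 : (2 : ℕ) ∉ insert 5 (PT w) := by
    rw [mem_insert, mem_PT]
    rintro (h | h)
    · omega
    · exact h.2.2.1 rfl
  rw [e, prod_insert h2, prod_insert h5]
  push_cast
  ring

/-- the growth of the levels -/
lemma log_zf {c : ℝ} (hc : 0 < c) {f : ℕ → ℕ} (hf : ∀ᶠ L in atTop, 1 ≤ f L) {r : ℝ} (hr : 0 < r)
    (h : Tendsto (fun L : ℕ => Real.log (f L) / L) atTop (𝓝 r)) :
    Tendsto (fun L : ℕ => Real.log (zf c (f L)) / L) atTop (𝓝 (c * r)) := by
  have hlog : Tendsto (fun L : ℕ => Real.log (f L)) atTop atTop := by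
    have h1 : Tendsto (fun L : ℕ => Real.log (f L) / L * L) atTop atTop :=
      h.pos_mul_atTop hr tendsto_natCast_atTop_atTop
    refine h1.congr' ?_
    filter_upwards [eventually_ge_atTop 1] with L hL
    have : (L : ℝ) ≠ 0 := by
      have : (0 : ℝ) < L := by exact_mod_cast hL
      exact this.ne'
    field_simp
  have hpow : Tendsto (fun L : ℕ => (f L : ℝ) ^ c) atTop atTop := by
    have h1 : Tendsto (fun L : ℕ => Real.exp (Real.log (f L) * c)) atTop atTop :=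
      Real.tendsto_exp_atTop.comp (hlog.atTop_mul_const hc)
    refine h1.congr' ?_
    filter_upwards [hf] with L hL
    rw [Real.rpow_def_of_pos (by exact_mod_cast hL)]
  have h2 : Tendsto (fun L : ℕ => ((zf c (f L) : ℕ) : ℝ) / (f L : ℝ) ^ c) atTop (𝓝 1) :=
    (tendsto_nat_floor_div_atTop (R := ℝ)).comp hpow
  have h3 : Tendsto (fun L : ℕ => Real.log (((zf c (f L) : ℕ) : ℝ) / (f L : ℝ) ^ c)) atTop (𝓝 0) := by
    have := h2.log one_ne_zero
    rwa [Real.log_one] at this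
  have h4 : Tendsto (fun L : ℕ => Real.log (((zf c (f L) : ℕ) : ℝ) / (f L : ℝ) ^ c) / L + c * (Real.log (f L) / L))
      atTop (𝓝 (0 + c * r)) :=
    (h3.div_atTop tendsto_natCast_atTop_atTop).add (h.const_mul c)
  rw [zero_add] at h4
  refine h4.congr' ?_
  filter_upwards [hf, eventually_ge_atTop 1, hpow.eventually_ge_atTop 1] with L h5 h6 h7
  have hL : (L : ℝ) ≠ 0 := by
    have : (0 : ℝ) < L := by exact_mod_cast h6
    exact this.ne'
  have hf0 : (0 : ℝ) < f L := by exact_mod_cast h5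
  have hz : (0 : ℝ) < (zf c (f L) : ℕ) := by
    have : 0 < zf c (f L) := Nat.floor_pos.2 h7
    exact_mod_cast this
  rw [Real.log_div hz.ne' (by positivity), Real.log_rpow hf0]
  field_simp
  ring

lemma VT_lim {z : ℕ → ℕ} {r : ℝ} (hr : 0 < r) (h : Tendsto (fun L : ℕ => Real.log (z L) / L) atTop (𝓝 r)) :
    Tendsto (fun L : ℕ => (L : ℝ) * VT (z L)) atTop (𝓝 (5 / 2 * Real.exp (-Real.eulerMascheroniConstant) / r)) := by
  have hlog : Tendsto (fun L : ℕ => Real.log (z L)) atTop atTop := by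
    have h1 : Tendsto (fun L : ℕ => Real.log (z L) / L * L) atTop atTop :=
      h.pos_mul_atTop hr tendsto_natCast_atTop_atTop
    refine h1.congr' ?_
    filter_upwards [eventually_ge_atTop 1] with L hL
    have : (L : ℝ) ≠ 0 := by
      have : (0 : ℝ) < L := by exact_mod_cast hL
      exact this.ne'
    field_simp
  have hz : Tendsto z atTop atTop := by
    rw [← tendsto_natCast_atTop_iff (R := ℝ)]
    refine tendsto_atTop_mono' _ ?_ hlog
    filter_upwards with L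
    exact (Real.log_le_self (by positivity))
  have h1 := Vp_mertens.comp hz
  have h2 : Tendsto (fun L : ℕ => 5 / 2 * (Vp (z L) * Real.log (z L)) / (Real.log (z L) / L)) atTop
      (𝓝 (5 / 2 * Real.exp (-Real.eulerMascheroniConstant) / r)) := by
    refine Tendsto.div ?_ h hr.ne'
    exact h1.const_mul (5 / 2)
  refine h2.congr' ?_
  filter_upwards [hz.eventually_ge_atTop 5, eventually_ge_atTop 1, hlog.eventually_gt_atTop 0] with L h3 h4 h5
  have hL : (L : ℝ) ≠ 0 := by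
    have : (0 : ℝ) < L := by exact_mod_cast h4
    exact this.ne'
  rw [VT_Vp h3]
  field_simp

lemma lo_lim {c : ℝ} (hc : 0 < c) : Tendsto (fun L : ℕ => Real.log (zlo c L) / L) atTop (𝓝 (c * (2 * Real.log 10))) := by
  have h10 : 0 < Real.log 10 := Real.log_pos (by norm_num)
  refine log_zf hc (f := fun L => 10 ^ (2 * L)) (Eventually.of_forall fun L => Nat.one_le_pow _ _ (by norm_num))
    (by positivity) ?_
  refine tendsto_const_nhds.congr' ?_
  filter_upwards [eventually_ge_atTop 1] with L hL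
  have : (L : ℝ) ≠ 0 := by
    have : (0 : ℝ) < L := by exact_mod_cast hL
    exact this.ne'
  push_cast
  rw [Real.log_pow]
  push_cast
  field_simp

lemma hi_lim {c : ℝ} (hc : 0 < c) : Tendsto (fun L : ℕ => Real.log (zhi c L) / L) atTop (𝓝 (c * (2 * Real.log 10))) := by
  have h10 : 0 < Real.log 10 := Real.log_pos (by norm_num)
  refine log_zf hc (f := fun L => 10 ^ (2 * L + 1)) (Eventually.of_forall fun L => Nat.one_le_pow _ _ (by norm_num))
    (by positivity) ?_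
  have h1 : Tendsto (fun L : ℕ => 2 * Real.log 10 + Real.log 10 / L) atTop (𝓝 (2 * Real.log 10 + 0)) :=
    tendsto_const_nhds.add (tendsto_const_nhds.div_atTop tendsto_natCast_atTop_atTop)
  rw [add_zero] at h1
  refine h1.congr' ?_
  filter_upwards [eventually_ge_atTop 1] with L hL
  have : (L : ℝ) ≠ 0 := by
    have : (0 : ℝ) < L := by exact_mod_cast hL
    exact this.ne'
  push_cast
  rw [Real.log_pow]
  push_cast
  field_simp

lemma kap_eq {c : ℝ} (hc : 0 < c) : 5 / 2 * Real.exp (-Real.eulerMascheroniConstant) / (c * (2 * Real.log 10)) = kap c := by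
  have h10 : 0 < Real.log 10 := Real.log_pos (by norm_num)
  unfold kap
  field_simp
  ring

/-- the indices with primes in `(z, w]` other than `2` and `5` -/
noncomputable def Tz (z w : ℕ) : Finset (Ix 1) := (Jx 1 z w).filter (fun j => pp j ≠ 2 ∧ pp j ≠ 5)

lemma mem_Tz {z w : ℕ} {j : Ix 1} : j ∈ Tz z w ↔ z < pp j ∧ pp j ∈ PT w := by
  unfold Tz
  rw [mem_filter, mem_Jx, mem_PT]
  constructor
  · rintro ⟨⟨h0, h1⟩, h2⟩
    exact ⟨h0, h1, j.1.2, h2⟩
  · rintro ⟨h0, h1, h2, h3⟩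
    exact ⟨⟨h0, h1⟩, h3⟩

lemma Tz_disj (z w y : ℕ) : Disjoint (Tz z w) (Jx 1 w y) := by
  rw [Finset.disjoint_left]
  intro j h1 h2
  rw [mem_Tz, mem_PT] at h1
  rw [mem_Jx] at h2
  omega

lemma pp_inj : Function.Injective (fun j : Ix 1 => pp j) := by
  intro i j hij
  have h4 : i.1 = j.1 := Subtype.ext hij
  exact Prod.ext h4 (Subsingleton.elim _ _)

lemma prod_Ix {s : Finset (Ix 1)} {t : Finset ℕ} (h : ∀ j, j ∈ s ↔ pp j ∈ t) (ht : ∀ p ∈ t, p.Prime) (f : ℕ → ℝ) :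
    ∏ j ∈ s, f (pp j) = ∏ p ∈ t, f p := by
  classical
  rw [← prod_image (f := f) (g := fun j : Ix 1 => pp j) fun i _ j _ hij => pp_inj hij]
  congr 1
  ext p
  rw [mem_image]
  constructor
  · rintro ⟨j, hj, rfl⟩
    exact (h j).1 hj
  · intro hp
    exact ⟨(⟨p, ht p hp⟩, 0), (h _).2 hp, rfl⟩

open Classical in
lemma Tz_union {z w y : ℕ} (hzw : z ≤ w) (hw : 5 ≤ w) (hy : w ≤ y) (j : Ix 1) :
    j ∈ Tz z w ∪ Jx 1 w y ↔ z < pp j ∧ pp j ∈ PT y := by
  rw [mem_union, mem_Tz, mem_PT, mem_Jx, mem_PT]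
  have := j.1.2
  constructor
  · rintro (⟨h0, h1, h2⟩ | ⟨h1, h2⟩)
    · exact ⟨h0, by omega, h2⟩
    · exact ⟨by omega, h2, this, by omega, by omega⟩
  · rintro ⟨h0, h1, h2⟩
    rcases Nat.lt_or_ge w (pp j) with h | h
    · exact Or.inr ⟨h, h1⟩
    · exact Or.inl ⟨h0, h, h2⟩

lemma VT_split {w y : ℕ} (hw : 5 ≤ w) (hy : w ≤ y) : VT w * Vs pp (Jx 1 w y) = VT y := by
  classical
  have h1 : VT w = Vs pp (Tz 0 w) := by
    unfold VT Vs
    refine (prod_Ix (fun j => ?_) (fun p hp => (mem_PT.1 hp).2.1) (fun p => 1 - 1 / (p : ℝ))).symm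
    rw [mem_Tz]
    exact ⟨fun h => h.2, fun h => ⟨j.1.2.pos, h⟩⟩
  have h2 : VT y = Vs pp (Tz 0 w ∪ Jx 1 w y) := by
    unfold VT Vs
    refine (prod_Ix (fun j => ?_) (fun p hp => (mem_PT.1 hp).2.1) (fun p => 1 - 1 / (p : ℝ))).symm
    have := Tz_union (Nat.zero_le w) hw hy j
    have h3 : j ∈ Tz 0 w ∪ Jx 1 w y ↔ 0 < pp j ∧ pp j ∈ PT y := by
      rw [← this]
    rw [h3]
    exact ⟨fun h => h.2, fun h => ⟨j.1.2.pos, h⟩⟩
  rw [h1, h2]
  unfold Vs
  rw [prod_union (Tz_disj 0 w y)]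

/-- avoiding the classes `X` modulo the primes in `PT y` larger than `z` -/
def Avd (X : Ix 1 → Ω → ℕ) (z y : ℕ) (ω : Ω) (n : ℕ) : Prop :=
  ∀ j : Ix 1, z < pp j → pp j ∈ PT y → ¬ n ≡ X j ω [MOD pp j]

lemma mem_Av {s : Finset (Ix 1)} {z y : ℕ} (h : ∀ j, j ∈ s ↔ z < pp j ∧ pp j ∈ PT y) (n : ℕ) (ω : Ω) :
    ω ∈ Av pp X s (fun _ => (n : ℤ)) ↔ Avd X z y ω n := by
  unfold Av Avd
  simp only [Set.mem_iInter, Set.mem_preimage, Set.mem_compl_iff, Bd]
  refine forall_congr' fun j => ?_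
  rw [h j, and_imp]
  refine imp_congr_right fun _ => imp_congr_right fun _ => not_congr ?_
  show (pp j : ℤ) ∣ (n : ℤ) - (X j ω : ℤ) ↔ _
  rw [Nat.modEq_iff_dvd, dvd_sub_comm]

end Pool.Agent.L5helper86.PalR
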