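import Pool.Agent.L5helper86.PalR.Law
/-! helper86: the law for palindromes which avoid random residue classes, almost sure statement. -/
set_option autoImplicit false
namespace Pool.Agent.L5helper86.PalR
open Finset Filter Topology MeasureTheory ProbabilityTheory
open Pool.Agent.H861R2.Pal (pvl)
open Pool.Agent.L5helper2.RS

variable {Ω : Type} [MeasurableSpace Ω] {P : Measure Ω} {X : Ix 1 → Ω → ℕ}

/-- the inequality of Chebyshev of the library RS for every decidability instance -/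
theorem cheb_dec {ι : Type} [dec : DecidableEq ι] {p : ι → ℕ} {Y : ι → Ω → ℕ} (h : RSys P p Y) {κ : Type}
    (M : Finset κ) (T : Finset ι) (U : κ → Finset ι) (hU : ∀ m, Disjoint T (U m)) (v : κ → ι → ℤ) (δ : ℝ) (hδ : 0 < δ) :
    P.real {ω | δ ≤ |∑ m ∈ M, ((Av p Y (T ∪ U m) (v m)).indicator (fun _ => (1 : ℝ)) ω -
        Vs p (U m) * (Av p Y T (v m)).indicator (fun _ => (1 : ℝ)) ω)|} ≤
      (∑ m ∈ M, ∑ m' ∈ M, Vs p (U m) * Vs p (U m') *
        (∏ j ∈ U m ∩ U m', rf p (v m) (v m') j - 1)) / δ ^ 2 := by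
  have e : dec = fun a b => Classical.propDecidable (a = b) := Subsingleton.elim _ _
  subst e
  exact h.cheb M T U hU v δ hδ

/-- the palindromes which avoid the given classes `b` modulo the primes up to `z` -/
def Mb (b : ℕ → ℕ) (l L z : ℕ) : Finset (Fin L → Fin 10) :=
  univ.filter (fun m => ∀ p ∈ PT z, ¬ pvl l L m ≡ b p [MOD p])

open Classical in
/-- the error -/
noncomputable def Err (X : Ix 1 → Ω → ℕ) (b : ℕ → ℕ) (c : ℝ) (l L z w : ℕ) (ω : Ω) : ℝ :=
  ∑ m ∈ Mb b l L z, ((Av pp X (Tz z w ∪ Jx 1 w (zf c (pvl l L m))) (fun _ => (pvl l L m : ℤ))).indicator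
      (fun _ => (1 : ℝ)) ω - Vs pp (Jx 1 w (zf c (pvl l L m))) *
      (Av pp X (Tz z w) (fun _ => (pvl l L m : ℤ))).indicator (fun _ => (1 : ℝ)) ω)

open Classical in
lemma cheb_pal : ∃ (C : ℝ) (w0 : ℕ), 0 ≤ C ∧ ∀ {Ω : Type} [MeasurableSpace Ω] {P : Measure Ω} {X : Ix 1 → Ω → ℕ},
    RSys P (pp (k := 1)) X → ∀ (b : ℕ → ℕ) (c : ℝ), 0 < c → ∀ (l L z w : ℕ), 1 ≤ L → 1 ≤ l → l ≤ 9 → w0 ≤ w →
    ∀ δ : ℝ, 0 < δ → P.real {ω | δ ≤ |Err X b c l L z w ω|} ≤
      (C * (w : ℝ) ^ (-(1 / 8) : ℝ) * (10 ^ L * Vs pp (Jx 1 w (zlo c L))) ^ 2 + 10 ^ L * Vs pp (Jx 1 w (zlo c L))) / δ ^ 2 := by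
  obtain ⟨C, w0, hC, hw05, hvar⟩ := var_pal
  refine ⟨C, w0, hC, ?_⟩
  intro Ω _ P X h b c hc l L z w hL hl1 hl9 hw δ hδ
  have hc1 := cheb_dec h (Mb b l L z) (Tz z w) (fun m => Jx 1 w (zf c (pvl l L m)))
      (fun m => Tz_disj _ _ _) (fun m _ => (pvl l L m : ℤ)) δ hδ
  have hc2 := hvar w hw l L hL hl9 (fun m => zf c (pvl l L m)) (zlo c L)
      (fun m => (z_bounds hc hL hl1 hl9 m).1)
  have hnn : ∀ m m' : Fin L → Fin 10, 0 ≤ Vs pp (Jx 1 w (zf c (pvl l L m))) * Vs pp (Jx 1 w (zf c (pvl l L m'))) *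
      (∏ j ∈ Jx 1 w (zf c (pvl l L m)) ∩ Jx 1 w (zf c (pvl l L m')), rf pp (fun _ => (pvl l L m : ℤ)) (fun _ => (pvl l L m' : ℤ)) j - 1) := by
    intro m m'
    refine mul_nonneg (mul_pos (Vs_pos pp_two _) (Vs_pos pp_two _)).le ?_
    have := one_le_prodR (s := Jx 1 w (zf c (pvl l L m)) ∩ Jx 1 w (zf c (pvl l L m')))
      (f := rf pp (fun _ => (pvl l L m : ℤ)) (fun _ => (pvl l L m' : ℤ))) fun j _ => rf_ge_one pp_two _ _ j
    linarith
  have hc4 : ∑ m ∈ Mb b l L z, ∑ m' ∈ Mb b l L z, Vs pp (Jx 1 w (zf c (pvl l L m))) * Vs pp (Jx 1 w (zf c (pvl l L m'))) *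
      (∏ j ∈ Jx 1 w (zf c (pvl l L m)) ∩ Jx 1 w (zf c (pvl l L m')), rf pp (fun _ => (pvl l L m : ℤ)) (fun _ => (pvl l L m' : ℤ)) j - 1) ≤
      C * (w : ℝ) ^ (-(1 / 8) : ℝ) * (10 ^ L * Vs pp (Jx 1 w (zlo c L))) ^ 2 + 10 ^ L * Vs pp (Jx 1 w (zlo c L)) := by
    refine le_trans ?_ hc2
    refine (sum_le_sum fun m _ => sum_le_sum_of_subset_of_nonneg (subset_univ _) fun m' _ _ => hnn m m').trans ?_
    exact sum_le_sum_of_subset_of_nonneg (subset_univ _) fun m _ _ => sum_nonneg fun m' _ => hnn m m'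
  have hc3 := div_le_div_of_nonneg_right hc4 (show (0 : ℝ) ≤ δ ^ 2 by positivity)
  exact hc1.trans hc3

/-- `V_L` -/
noncomputable def VL (w : ℕ → ℕ) (c : ℝ) (L : ℕ) : ℝ := Vs pp (Jx 1 (w L) (zlo c L))

lemma VL_pos (w : ℕ → ℕ) (c : ℝ) (L : ℕ) : 0 < VL w c L := Vs_pos pp_two _

lemma kap_pos {c : ℝ} (hc : 0 < c) : 0 < kap c := by
  have h10 : 0 < Real.log 10 := Real.log_pos (by norm_num)
  unfold kap
  positivity

lemma f_lim {c : ℝ} (hc : 0 < c) : Tendsto (fun L : ℕ => (L : ℝ) * VT (zlo c L)) atTop (𝓝 (kap c)) := by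
  have h10 : 0 < Real.log 10 := Real.log_pos (by norm_num)
  have := VT_lim (by positivity) (lo_lim hc)
  rwa [kap_eq hc] at this

lemma g_lim {c : ℝ} (hc : 0 < c) : Tendsto (fun L : ℕ => (L : ℝ) * VT (zhi c L)) atTop (𝓝 (kap c)) := by
  have h10 : 0 < Real.log 10 := Real.log_pos (by norm_num)
  have := VT_lim (by positivity) (hi_lim hc)
  rwa [kap_eq hc] at this

lemma zlo_large {w : ℕ → ℕ} (hw : Tendsto w atTop atTop) (hwl : Tendsto (fun L : ℕ => Real.log (w L) / L) atTop (𝓝 0))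
    {c : ℝ} (hc : 0 < c) : ∀ᶠ L : ℕ in atTop, w L ≤ zlo c L := by
  have h10 : 0 < Real.log 10 := Real.log_pos (by norm_num)
  filter_upwards [log_small hwl (show (0 : ℝ) < c * (2 * Real.log 10) by positivity), hw.eventually_ge_atTop 1] with L h1 h2
  unfold zlo zf
  refine Nat.le_floor ?_
  have hw0 : (0 : ℝ) < w L := by exact_mod_cast h2
  have h3 : (0 : ℝ) < ((10 ^ (2 * L) : ℕ) : ℝ) := by positivity
  rw [← Real.log_le_log_iff hw0 (by positivity), Real.log_rpow h3]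
  push_cast
  rw [Real.log_pow]
  push_cast
  linarith

lemma VL_low {w : ℕ → ℕ} (hw : Tendsto w atTop atTop) (hwl : Tendsto (fun L : ℕ => Real.log (w L) / L) atTop (𝓝 0))
    {c : ℝ} (hc : 0 < c) : ∀ᶠ L : ℕ in atTop, kap c / 2 / L ≤ VL w c L ∧ VL w c L ≤ L * VT (zlo c L) ∧
    VT (w L) * VL w c L = VT (zlo c L) := by
  have hk := kap_pos hc
  filter_upwards [(f_lim hc).eventually_const_le (show kap c / 2 < kap c by linarith), zlo_large hw hwl hc,
    VT_low hw hwl, eventually_ge_atTop 5, hw.eventually_ge_atTop 5] with L h1 h2 h3 h4 h5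
  have hL0 : (0 : ℝ) < L := by
    have : (0 : ℕ) < L := by omega
    exact_mod_cast this
  have h6 : VT (w L) * VL w c L = VT (zlo c L) := VT_split h5 h2
  have hV := VL_pos w c L
  have h7 : VT (w L) ≤ 1 := prod_le_one (fun p hp => (fac_pos (mem_PT.1 hp).2.1).le) fun p _ => fac_le p
  refine ⟨?_, ?_, h6⟩
  · rw [div_le_iff₀ hL0]
    have h8 : VT (zlo c L) ≤ VL w c L := by
      rw [← h6]
      exact mul_le_of_le_one_left hV.le h7
    nlinarith
  · have h9 : 1 ≤ L * VT (w L) := by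
      rw [div_le_iff₀ hL0] at h3
      linarith
    rw [← h6]
    nlinarith

lemma bc_pal (h : RSys P (pp (k := 1)) X) (b : ℕ → ℕ) {z w : ℕ → ℕ} (hw64 : ∀ L, L ^ 64 ≤ w L)
    (hw : Tendsto w atTop atTop) (hwl : Tendsto (fun L : ℕ => Real.log (w L) / L) atTop (𝓝 0))
    {c : ℝ} (hc : 0 < c) {l : ℕ} (hl1 : 1 ≤ l) (hl9 : l ≤ 9) :
    ∀ᵐ ω ∂P, ∀ᶠ L : ℕ in atTop, |Err X b c l L (z L) (w L) ω| < 10 ^ L * VL w c L / (L : ℝ) ^ 2 := by
  classical
  have hP := h.prob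
  obtain ⟨C, w0, hC, hcheb⟩ := cheb_pal
  have hk := kap_pos hc
  -- powers against the exponential
  have hpe : ∀ᶠ L : ℕ in atTop, (L : ℝ) ^ 5 * ((L : ℝ) + 1) ^ 2 ≤ kap c / 2 * 10 ^ L := by
    have h1 := (isLittleO_pow_const_const_pow_of_one_lt (R := ℝ) 7 (show (1 : ℝ) < 10 by norm_num)).bound
      (show (0 : ℝ) < kap c / 8 by positivity)
    filter_upwards [h1, eventually_ge_atTop 1] with L hL hL1
    rw [Real.norm_of_nonneg (by positivity), Real.norm_of_nonneg (by positivity)] at hL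
    have hL1' : (1 : ℝ) ≤ L := by exact_mod_cast hL1
    have h2 : ((L : ℝ) + 1) ^ 2 ≤ 4 * (L : ℝ) ^ 2 := by nlinarith
    calc (L : ℝ) ^ 5 * ((L : ℝ) + 1) ^ 2 ≤ (L : ℝ) ^ 5 * (4 * (L : ℝ) ^ 2) := by gcongr
      _ = 4 * (L : ℝ) ^ 7 := by ring
      _ ≤ 4 * (kap c / 8 * 10 ^ L) := by gcongr
      _ = _ := by ring
  have key : ∀ᶠ L : ℕ in atTop, P.real {ω | 10 ^ L * VL w c L / (L : ℝ) ^ 2 ≤ |Err X b c l L (z L) (w L) ω|} ≤
      (4 * C + 1) / ((L : ℝ) + 1) ^ 2 := by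
    filter_upwards [hpe, VL_low hw hwl hc, eventually_ge_atTop 1, hw.eventually_ge_atTop w0] with L h1 h2 hL1 h3
    have hL1' : (1 : ℝ) ≤ L := by exact_mod_cast hL1
    have hL0 : (0 : ℝ) < L := by linarith
    have hV := VL_pos w c L
    have hN : (0 : ℝ) < 10 ^ L := by positivity
    have hc3 : P.real {ω | 10 ^ L * VL w c L / (L : ℝ) ^ 2 ≤ |Err X b c l L (z L) (w L) ω|} ≤
        (C * ((w L : ℕ) : ℝ) ^ (-(1 / 8) : ℝ) * (10 ^ L * VL w c L) ^ 2 + 10 ^ L * VL w c L) /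
          (10 ^ L * VL w c L / (L : ℝ) ^ 2) ^ 2 :=
      hcheb h b c hc l L (z L) (w L) hL1 hl1 hl9 h3 _ (by positivity)
    refine hc3.trans ?_
    have e1 : ((w L : ℕ) : ℝ) ^ (-(1 / 8) : ℝ) ≤ 1 / (L : ℝ) ^ 8 := by
      have h4 : ((L ^ 64 : ℕ) : ℝ) ≤ w L := by exact_mod_cast hw64 L
      have h5 : (0 : ℝ) < ((L ^ 64 : ℕ) : ℝ) := by positivity
      refine (Real.rpow_le_rpow_of_nonpos h5 h4 (by norm_num)).trans (le_of_eq ?_)
      push_cast
      rw [← Real.rpow_natCast, ← Real.rpow_mul hL0.le]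
      have e0 : ((64 : ℕ) : ℝ) * (-(1 / 8)) = -((8 : ℕ) : ℝ) := by norm_num
      rw [e0, Real.rpow_neg hL0.le, Real.rpow_natCast, one_div]
    have e3 : (C * ((w L : ℕ) : ℝ) ^ (-(1 / 8) : ℝ) * (10 ^ L * VL w c L) ^ 2 + 10 ^ L * VL w c L) /
          (10 ^ L * VL w c L / (L : ℝ) ^ 2) ^ 2 ≤
        (C * (1 / (L : ℝ) ^ 8) * (10 ^ L * VL w c L) ^ 2 + 10 ^ L * VL w c L) /
          (10 ^ L * VL w c L / (L : ℝ) ^ 2) ^ 2 := by gcongr
    refine e3.trans ?_
    have e2 : (C * (1 / (L : ℝ) ^ 8) * (10 ^ L * VL w c L) ^ 2 + 10 ^ L * VL w c L) / (10 ^ L * VL w c L / (L : ℝ) ^ 2) ^ 2 =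
        C / (L : ℝ) ^ 4 + (L : ℝ) ^ 4 / (10 ^ L * VL w c L) := by
      field_simp
    rw [e2]
    have h4 : ((L : ℝ) + 1) ^ 2 ≤ 4 * (L : ℝ) ^ 2 := by nlinarith
    have h5 : C / (L : ℝ) ^ 4 ≤ 4 * C / ((L : ℝ) + 1) ^ 2 := by
      rw [div_le_div_iff₀ (by positivity) (by positivity)]
      have h6 : ((L : ℝ) + 1) ^ 2 ≤ 4 * (L : ℝ) ^ 4 := by
        refine h4.trans ?_
        have : (1 : ℝ) ≤ (L : ℝ) ^ 2 := one_le_pow₀ hL1'
        nlinarith [sq_nonneg ((L : ℝ) ^ 2)]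
      calc C * ((L : ℝ) + 1) ^ 2 ≤ C * (4 * (L : ℝ) ^ 4) := mul_le_mul_of_nonneg_left h6 hC
        _ = _ := by ring
    have h7 : (L : ℝ) ^ 4 / (10 ^ L * VL w c L) ≤ 1 / ((L : ℝ) + 1) ^ 2 := by
      rw [div_le_div_iff₀ (by positivity) (by positivity), one_mul]
      have h8 : (L : ℝ) ^ 4 * ((L : ℝ) + 1) ^ 2 ≤ kap c / 2 / L * 10 ^ L := by
        rw [div_mul_eq_mul_div, le_div_iff₀ hL0]
        calc (L : ℝ) ^ 4 * ((L : ℝ) + 1) ^ 2 * L = (L : ℝ) ^ 5 * ((L : ℝ) + 1) ^ 2 := by ring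
          _ ≤ _ := h1
      refine h8.trans ?_
      rw [mul_comm (10 ^ L)]
      exact mul_le_mul_of_nonneg_right h2.1 hN.le
    have h9 : (4 * C + 1) / ((L : ℝ) + 1) ^ 2 = 4 * C / ((L : ℝ) + 1) ^ 2 + 1 / ((L : ℝ) + 1) ^ 2 := by ring
    rw [h9]
    exact add_le_add h5 h7
  filter_upwards [bc key] with ω hω
  filter_upwards [hω] with L hL
  exact not_le.1 hL

lemma max_level {z : ℕ → ℕ} (hz : Tendsto (fun L : ℕ => Real.log (z L) / L) atTop (𝓝 0)) :
    Tendsto (fun L : ℕ => max (z L) (L ^ 64)) atTop atTop ∧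
      Tendsto (fun L : ℕ => Real.log ((max (z L) (L ^ 64) : ℕ) : ℝ) / L) atTop (𝓝 0) := by
  constructor
  · refine tendsto_atTop_mono (fun L => ?_) tendsto_id
    exact (Nat.le_self_pow (by norm_num) L).trans (le_max_right _ _)
  · have h1 : Tendsto (fun L : ℕ => Real.log (L : ℝ) / L) atTop (𝓝 0) := by
      have := Real.isLittleO_log_id_atTop.tendsto_div_nhds_zero
      exact this.comp tendsto_natCast_atTop_atTop
    have h2 : Tendsto (fun L : ℕ => Real.log (z L) / L + 64 * (Real.log (L : ℝ) / L)) atTop (𝓝 (0 + 64 * 0)) :=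
      hz.add (h1.const_mul 64)
    rw [mul_zero, add_zero] at h2
    refine squeeze_zero' ?_ ?_ h2
    · filter_upwards with L
      exact div_nonneg (Real.log_natCast_nonneg _) (Nat.cast_nonneg _)
    · filter_upwards [eventually_ge_atTop 1] with L hL
      have hL0 : (0 : ℝ) < L := by exact_mod_cast hL
      have h3 : (64 : ℝ) * (Real.log (L : ℝ) / L) = (64 * Real.log L) / L := by ring
      rw [h3, ← add_div]
      refine div_le_div_of_nonneg_right ?_ hL0.le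
      have h4 : 0 ≤ Real.log (z L) := Real.log_natCast_nonneg _
      have h5 : 0 ≤ 64 * Real.log (L : ℝ) := by
        have := Real.log_natCast_nonneg L
        linarith
      rcases le_total (z L) (L ^ 64) with h | h
      · rw [max_eq_right h]
        push_cast
        rw [Real.log_pow]
        push_cast
        linarith
      · rw [max_eq_left h]
        linarith

open Classical in
/-- the law for one leading digit -/
theorem law1 (h : RSys P (pp (k := 1)) X) (b : ℕ → ℕ) {z : ℕ → ℕ}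
    (hz : Tendsto (fun L : ℕ => Real.log (z L) / L) atTop (𝓝 0)) {c : ℝ} (hc : 0 < c) {l : ℕ} (hl1 : 1 ≤ l) (hl9 : l ≤ 9) :
    ∀ᵐ ω ∂P, Tendsto (fun L : ℕ => (#{m ∈ Mb b l L (z L) | Avd X (z L) (zf c (pvl l L m)) ω (pvl l L m)} : ℝ) / (10 ^ L / L))
      atTop (𝓝 (kap c)) := by
  have hk := kap_pos hc
  obtain ⟨w, hwdef⟩ : ∃ w : ℕ → ℕ, w = fun L => max (z L) (L ^ 64) := ⟨_, rfl⟩
  obtain ⟨hw, hwl⟩ := max_level hz
  rw [← hwdef] at hw
  have hwl' : Tendsto (fun L : ℕ => Real.log (w L) / L) atTop (𝓝 0) := by rw [hwdef]; exact hwl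
  have hw64 : ∀ L, L ^ 64 ≤ w L := fun L => by rw [hwdef]; exact le_max_right _ _
  have hwz : ∀ L, z L ≤ w L := fun L => by rw [hwdef]; exact le_max_left _ _
  filter_upwards [bc_pal h b (z := z) hw64 hw hwl' hc hl1 hl9] with ω hω
  -- the classes
  obtain ⟨a, ha⟩ : ∃ a : ℕ → ℕ, ∀ j : Ix 1, a (pp j) = X j ω := by
    refine ⟨fun p => if hp : p.Prime then X (⟨p, hp⟩, 0) ω else 0, fun j => ?_⟩
    have hp : (pp j).Prime := j.1.2
    simp only [hp, dif_pos]
    congr 1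
    exact pp_inj rfl
  -- the main inequality
  have hmain : ∀ ε : ℝ, 0 < ε → ∀ᶠ L : ℕ in atTop,
      (1 - ε) * (L * VT (zhi c L)) - (L * VT (zlo c L)) / L ≤
        (#{m ∈ Mb b l L (z L) | Avd X (z L) (zf c (pvl l L m)) ω (pvl l L m)} : ℝ) / (10 ^ L / L) ∧
      (#{m ∈ Mb b l L (z L) | Avd X (z L) (zf c (pvl l L m)) ω (pvl l L m)} : ℝ) / (10 ^ L / L) ≤
        (1 + ε) * (L * VT (zlo c L)) + (L * VT (zlo c L)) / L := by
    intro ε hε
    filter_upwards [hω, Tpart hw hwl' ε hε, VL_low hw hwl' hc, zlo_large hw hwl' hc, eventually_ge_atTop 5,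
      hw.eventually_ge_atTop 5] with L h1 h2 h3 h4 h5 h5w
    have hL0 : (0 : ℝ) < L := by
      have : (0 : ℕ) < L := by omega
      exact_mod_cast this
    have hN : (0 : ℝ) < 10 ^ L := by positivity
    have h2' := abs_le.1 (h2 l hl1 hl9 (fun p => if p ≤ z L then b p else a p))
    obtain ⟨G, hG⟩ : ∃ G : ℝ, G = (#{m : Fin L → Fin 10 | ∀ p ∈ PT (w L), ¬ pvl l L m ≡
      (fun p => if p ≤ z L then b p else a p) p [MOD p]} : ℝ) := ⟨_, rfl⟩
    rw [← hG] at h2'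
    have hG0 : 0 ≤ G := by rw [hG]; exact Nat.cast_nonneg _
    obtain ⟨N, hNN⟩ : ∃ N : ℝ, N = (#{m ∈ Mb b l L (z L) | Avd X (z L) (zf c (pvl l L m)) ω (pvl l L m)} : ℝ) := ⟨_, rfl⟩
    rw [← hNN]
    -- the two sums
    have e1 : ∑ m ∈ Mb b l L (z L), (Av pp X (Tz (z L) (w L) ∪ Jx 1 (w L) (zf c (pvl l L m)))
        (fun _ => (pvl l L m : ℤ))).indicator (fun _ => (1 : ℝ)) ω = N := by
      rw [hNN, card_filter]
      push_cast
      refine sum_congr rfl fun m _ => ?_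
      rw [Set.indicator_apply]
      have hz := (z_bounds hc (show 1 ≤ L by omega) hl1 hl9 m).1
      have := mem_Av (X := X) (Tz_union (hwz L) h5w (h4.trans hz)) (pvl l L m) ω
      simp only [this]
    have e2 : ∑ m ∈ Mb b l L (z L), (Av pp X (Tz (z L) (w L)) (fun _ => (pvl l L m : ℤ))).indicator (fun _ => (1 : ℝ)) ω = G := by
      have e0 : (univ.filter (fun m : Fin L → Fin 10 => ∀ p ∈ PT (w L), ¬ pvl l L m ≡
          (fun p => if p ≤ z L then b p else a p) p [MOD p])) =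
          (Mb b l L (z L)).filter (fun m => Avd X (z L) (w L) ω (pvl l L m)) := by
        ext m
        rw [mem_filter, mem_filter]
        unfold Mb Avd
        rw [mem_filter]
        constructor
        · rintro ⟨_, h6⟩
          refine ⟨⟨mem_univ _, fun p hp => ?_⟩, fun j hj1 hj2 => ?_⟩
          · have hpz := (mem_PT.1 hp).1
            have h7 := h6 p (mem_PT.2 ⟨hpz.trans (hwz L), (mem_PT.1 hp).2⟩)
            simp only [hpz, if_true] at h7
            exact h7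
          · have h7 := h6 _ hj2
            have h8 : ¬ pp j ≤ z L := by omega
            simp only [h8, if_false] at h7
            rw [ha] at h7
            exact h7
        · rintro ⟨⟨_, h6⟩, h7⟩
          refine ⟨mem_univ _, fun p hp => ?_⟩
          by_cases hpz : p ≤ z L
          · simp only [hpz, if_true]
            exact h6 p (mem_PT.2 ⟨hpz, (mem_PT.1 hp).2⟩)
          · simp only [hpz, if_false]
            have h8 := h7 (⟨p, (mem_PT.1 hp).2.1⟩, 0) (not_le.1 hpz) hp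
            rw [← ha] at h8
            exact h8
      rw [hG, e0, card_filter]
      push_cast
      refine sum_congr rfl fun m _ => ?_
      rw [Set.indicator_apply]
      have h6 := mem_Av (X := X) (fun j => mem_Tz) (pvl l L m) ω (s := Tz (z L) (w L)) (z := z L) (y := w L)
      simp only [h6]
    have hind0 : ∀ m : Fin L → Fin 10, 0 ≤ (Av pp X (Tz (z L) (w L)) (fun _ => (pvl l L m : ℤ))).indicator (fun _ => (1 : ℝ)) ω :=
      fun m => Set.indicator_nonneg (fun _ _ => zero_le_one) _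
    have e3 : ∑ m ∈ Mb b l L (z L), Vs pp (Jx 1 (w L) (zf c (pvl l L m))) *
        (Av pp X (Tz (z L) (w L)) (fun _ => (pvl l L m : ℤ))).indicator (fun _ => (1 : ℝ)) ω ≤ VL w c L * G := by
      rw [← e2, mul_sum]
      refine sum_le_sum fun m _ => mul_le_mul_of_nonneg_right ?_ (hind0 m)
      exact Vs_anti pp_two (Jx_mono (z_bounds hc (show 1 ≤ L by omega) hl1 hl9 m).1 _)
    have e4 : Vs pp (Jx 1 (w L) (zhi c L)) * G ≤ ∑ m ∈ Mb b l L (z L), Vs pp (Jx 1 (w L) (zf c (pvl l L m))) *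
        (Av pp X (Tz (z L) (w L)) (fun _ => (pvl l L m : ℤ))).indicator (fun _ => (1 : ℝ)) ω := by
      rw [← e2, mul_sum]
      refine sum_le_sum fun m _ => mul_le_mul_of_nonneg_right ?_ (hind0 m)
      exact Vs_anti pp_two (Jx_mono (z_bounds hc (show 1 ≤ L by omega) hl1 hl9 m).2 _)
    unfold Err at h1
    rw [sum_sub_distrib, e1] at h1
    have h1' := abs_lt.1 h1
    have hdel : 10 ^ L * VL w c L / (L : ℝ) ^ 2 ≤ 10 ^ L * VT (zlo c L) / L := by
      rw [div_le_div_iff₀ (by positivity) hL0]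
      calc 10 ^ L * VL w c L * L ≤ 10 ^ L * (L * VT (zlo c L)) * L := by
            have := h3.2.1
            gcongr
        _ = _ := by ring
    have hhi : w L ≤ zhi c L := by
      have hz := z_bounds hc (show 1 ≤ L by omega) hl1 hl9 (fun _ => 0 : Fin L → Fin 10)
      exact h4.trans (hz.1.trans hz.2)
    have h6 := VT_split h5w hhi
    have hVh : 0 ≤ Vs pp (Jx 1 (w L) (zhi c L)) := (Vs_pos pp_two _).le
    have hVL := VL_pos w c L
    have u1 : G ≤ (1 + ε) * (10 ^ L * VT (w L)) := by linarith [h2'.2]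
    have u2 : (1 - ε) * (10 ^ L * VT (w L)) ≤ G := by linarith [h2'.1]
    have u3 : VL w c L * G ≤ (1 + ε) * (10 ^ L * VT (zlo c L)) := by
      calc VL w c L * G ≤ VL w c L * ((1 + ε) * (10 ^ L * VT (w L))) := mul_le_mul_of_nonneg_left u1 hVL.le
        _ = (1 + ε) * (10 ^ L * (VT (w L) * VL w c L)) := by ring
        _ = _ := by rw [h3.2.2]
    have u4 : (1 - ε) * (10 ^ L * VT (zhi c L)) ≤ Vs pp (Jx 1 (w L) (zhi c L)) * G := by
      calc (1 - ε) * (10 ^ L * VT (zhi c L)) = Vs pp (Jx 1 (w L) (zhi c L)) * ((1 - ε) * (10 ^ L * VT (w L))) := by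
            rw [← h6]
            ring
        _ ≤ _ := mul_le_mul_of_nonneg_left u2 hVh
    constructor
    · rw [le_div_iff₀ (by positivity)]
      have : ((1 - ε) * (L * VT (zhi c L)) - (L * VT (zlo c L)) / L) * (10 ^ L / L) =
          (1 - ε) * (10 ^ L * VT (zhi c L)) - 10 ^ L * VT (zlo c L) / L := by
        field_simp
      rw [this]
      linarith
    · rw [div_le_iff₀ (by positivity)]
      have : ((1 + ε) * (L * VT (zlo c L)) + (L * VT (zlo c L)) / L) * (10 ^ L / L) =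
          (1 + ε) * (10 ^ L * VT (zlo c L)) + 10 ^ L * VT (zlo c L) / L := by
        field_simp
      rw [this]
      linarith
  have hf := f_lim hc
  have hg := g_lim hc
  have hfL : Tendsto (fun L : ℕ => ((L : ℝ) * VT (zlo c L)) / L) atTop (𝓝 0) :=
    hf.div_atTop tendsto_natCast_atTop_atTop
  rw [tendsto_order]
  constructor
  · intro x hx
    obtain ⟨ε, hε⟩ : ∃ ε : ℝ, ε = (kap c - x) / (2 * kap c) := ⟨_, rfl⟩
    have hε0 : 0 < ε := by rw [hε]; apply div_pos <;> linarith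
    have h1 : Tendsto (fun L : ℕ => (1 - ε) * ((L : ℝ) * VT (zhi c L)) - (L * VT (zlo c L)) / L) atTop
        (𝓝 ((1 - ε) * kap c - 0)) := (hg.const_mul _).sub hfL
    have h2 : x < (1 - ε) * kap c - 0 := by
      have : ε * kap c = (kap c - x) / 2 := by rw [hε]; field_simp
      linarith
    filter_upwards [h1.eventually_const_lt h2, hmain ε hε0] with L h3 h4
    exact h3.trans_le h4.1
  · intro x hx
    obtain ⟨ε, hε⟩ : ∃ ε : ℝ, ε = (x - kap c) / (2 * kap c) := ⟨_, rfl⟩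
    have hε0 : 0 < ε := by rw [hε]; apply div_pos <;> linarith
    have h1 : Tendsto (fun L : ℕ => (1 + ε) * ((L : ℝ) * VT (zlo c L)) + (L * VT (zlo c L)) / L) atTop
        (𝓝 ((1 + ε) * kap c + 0)) := (hf.const_mul _).add hfL
    have h2 : (1 + ε) * kap c + 0 < x := by
      have : ε * kap c = (x - kap c) / 2 := by rw [hε]; field_simp
      linarith
    filter_upwards [h1.eventually_lt_const h2, hmain ε hε0] with L h3 h4
    exact h4.2.trans_lt h3

end Pool.Agent.L5helper86.PalR
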